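import Mathlib

set_option autoImplicit false

/-! Cell data (Graham–Lehrer): trace formula and triangularity. -/

namespace Pool.Agent.Helper17.Cherednik

open Module

/-- trace is additive along a surjection intertwining two endomorphisms -/
lemma trace_of_surjective {N L : Type} [AddCommGroup N] [Module ℂ N] [FiniteDimensional ℂ N]
    [AddCommGroup L] [Module ℂ L] [FiniteDimensional ℂ L]
    (K : Submodule ℂ N) (π : N →ₗ[ℂ] L) (hK : ∀ x, x ∈ K ↔ π x = 0)
    (hπ : Function.Surjective π) (f : N →ₗ[ℂ] N) (g : L →ₗ[ℂ] L)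
    (h : ∀ x, π (f x) = g (π x)) (hf : ∀ x ∈ K, f x ∈ K) :
    LinearMap.trace ℂ N f = LinearMap.trace ℂ K (f.restrict hf) + LinearMap.trace ℂ L g := by
  obtain ⟨τ, hτ⟩ := LinearMap.exists_rightInverse_of_surjective π (LinearMap.range_eq_top.2 hπ)
  have hτ' : ∀ y, π (τ y) = y := fun y => LinearMap.congr_fun hτ y
  let j : N →ₗ[ℂ] K := (LinearMap.id - τ ∘ₗ π).codRestrict K (fun x => by
    rw [hK]
    simp [hτ'])
  have h1 : f = (f ∘ₗ τ) ∘ₗ π + (f ∘ₗ K.subtype) ∘ₗ j := by
    ext x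
    simp [j]
  have h2 : j ∘ₗ (f ∘ₗ K.subtype) = f.restrict hf := by
    ext x
    have hx : π (f x) = 0 := by
      rw [← hK]; exact hf x x.2
    simp [j, hx]
  have h3 : π ∘ₗ (f ∘ₗ τ) = g := by
    ext y
    simp [h, hτ']
  have e1 : LinearMap.trace ℂ N ((f ∘ₗ τ) ∘ₗ π) = LinearMap.trace ℂ L (π ∘ₗ (f ∘ₗ τ)) :=
    LinearMap.trace_comp_comm' _ _
  have e2 : LinearMap.trace ℂ N ((f ∘ₗ K.subtype) ∘ₗ j) =
      LinearMap.trace ℂ K (j ∘ₗ (f ∘ₗ K.subtype)) :=
    LinearMap.trace_comp_comm' _ _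
  conv_lhs => rw [h1]
  rw [map_add, e1, e2, h3, h2, add_comm]

section Reps

variable {A : Type} [Ring A] [Algebra ℂ A] {L : Type} [AddCommGroup L] [Module ℂ L]

/-- restriction of a representation to an invariant subspace -/
def subRep (ρ : A →ₐ[ℂ] Module.End ℂ L) (K : Submodule ℂ L) (h : ∀ a, ∀ x ∈ K, ρ a x ∈ K) :
    A →ₐ[ℂ] Module.End ℂ K :=
  AlgHom.ofLinearMap
    { toFun := fun a => (ρ a).restrict (h a)
      map_add' := fun a b => by ext x; simp
      map_smul' := fun r a => by ext x; simp }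
    (by ext x; simp) (fun a b => by ext x; simp)

/-- quotient of a representation by an invariant subspace -/
def quotRep (ρ : A →ₐ[ℂ] Module.End ℂ L) (K : Submodule ℂ L) (h : ∀ a, ∀ x ∈ K, ρ a x ∈ K) :
    A →ₐ[ℂ] Module.End ℂ (L ⧸ K) :=
  AlgHom.ofLinearMap
    { toFun := fun a => K.mapQ K (ρ a) (fun x hx => h a x hx)
      map_add' := fun a b => by ext x; simp
      map_smul' := fun r a => by ext x; simp }
    (by ext x; simp) (fun a b => by ext x; simp)

end Reps

/-- A Graham–Lehrer cell datum. -/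
structure CD (A : Type) [Ring A] [Algebra ℂ A] (Λ : Type) [PartialOrder Λ] (M : Λ → Type)
    [∀ l, Fintype (M l)] where
  C : Basis (Σ l : Λ, M l × M l) ℂ A
  σ : A →ₗ[ℂ] A
  σσ : ∀ a, σ (σ a) = a
  σmul : ∀ a b, σ (a * b) = σ b * σ a
  σC : ∀ l S T, σ (C ⟨l, (S, T)⟩) = C ⟨l, (T, S)⟩
  mulC : ∀ (a : A) (l : Λ), ∃ r : M l → M l → ℂ, ∀ S T : M l,
      a * C ⟨l, (S, T)⟩ - ∑ S' : M l, r S' S • C ⟨l, (S', T)⟩ ∈
        Submodule.span ℂ {z | ∃ m : Λ, m < l ∧ ∃ U U' : M m, z = C ⟨m, (U, U')⟩}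

namespace CD

variable {A : Type} [Ring A] [Algebra ℂ A] {Λ : Type} [PartialOrder Λ] {M : Λ → Type}
    [∀ l, Fintype (M l)] (D : CD A Λ M)

/-- span of the strictly lower cells -/
def low (l : Λ) : Submodule ℂ A :=
  Submodule.span ℂ {z | ∃ m : Λ, m < l ∧ ∃ U U' : M m, z = D.C ⟨m, (U, U')⟩}

/-- span of the cells `≤ l` -/
def lowEq (l : Λ) : Submodule ℂ A :=
  Submodule.span ℂ {z | ∃ m : Λ, m ≤ l ∧ ∃ U U' : M m, z = D.C ⟨m, (U, U')⟩}

lemma low_mono {l m : Λ} (h : l ≤ m) : D.low l ≤ D.low m := by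
  apply Submodule.span_mono
  rintro z ⟨n, hn, U, U', rfl⟩
  exact ⟨n, lt_of_lt_of_le hn h, U, U', rfl⟩

lemma low_le_lowEq (l : Λ) : D.low l ≤ D.lowEq l := by
  apply Submodule.span_mono
  rintro z ⟨n, hn, U, U', rfl⟩
  exact ⟨n, hn.le, U, U', rfl⟩

lemma lowEq_mono {l m : Λ} (h : l ≤ m) : D.lowEq l ≤ D.lowEq m := by
  apply Submodule.span_mono
  rintro z ⟨n, hn, U, U', rfl⟩
  exact ⟨n, hn.trans h, U, U', rfl⟩

lemma C_mem_lowEq (l : Λ) (U U' : M l) : D.C ⟨l, (U, U')⟩ ∈ D.lowEq l :=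
  Submodule.subset_span ⟨l, le_rfl, U, U', rfl⟩

lemma C_mem_low {m l : Λ} (h : m < l) (U U' : M m) : D.C ⟨m, (U, U')⟩ ∈ D.low l :=
  Submodule.subset_span ⟨m, h, U, U', rfl⟩

lemma repr_low {l : Λ} {z : A} (hz : z ∈ D.low l) (i : Σ l : Λ, M l × M l) (hi : ¬ i.1 < l) :
    D.C.repr z i = 0 := by
  classical
  refine Submodule.span_induction ?_ ?_ ?_ ?_ hz
  · rintro _ ⟨m, hm, U, U', rfl⟩
    rw [Basis.repr_self, Finsupp.single_apply, if_neg]
    rintro rfl
    exact hi hm
  · simp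
  · intro x y _ _ hx hy
    rw [map_add, Finsupp.add_apply, hx, hy, add_zero]
  · intro a x _ hx
    rw [map_smul, Finsupp.smul_apply, hx, smul_zero]

lemma repr_lowEq {l : Λ} {z : A} (hz : z ∈ D.lowEq l) (i : Σ l : Λ, M l × M l)
    (hi : ¬ i.1 ≤ l) : D.C.repr z i = 0 := by
  classical
  refine Submodule.span_induction ?_ ?_ ?_ ?_ hz
  · rintro _ ⟨m, hm, U, U', rfl⟩
    rw [Basis.repr_self, Finsupp.single_apply, if_neg]
    rintro rfl
    exact hi hm
  · simp
  · intro x y _ _ hx hy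
    rw [map_add, Finsupp.add_apply, hx, hy, add_zero]
  · intro a x _ hx
    rw [map_smul, Finsupp.smul_apply, hx, smul_zero]

lemma mul_C_mem (a : A) (l : Λ) (S T : M l) : a * D.C ⟨l, (S, T)⟩ ∈ D.lowEq l := by
  obtain ⟨r, hr⟩ := D.mulC a l
  have h := hr S T
  have h2 : a * D.C ⟨l, (S, T)⟩ = (a * D.C ⟨l, (S, T)⟩ - ∑ S' : M l, r S' S • D.C ⟨l, (S', T)⟩)
    + ∑ S' : M l, r S' S • D.C ⟨l, (S', T)⟩ := by abel
  rw [h2]
  refine Submodule.add_mem _ (D.low_le_lowEq l h) ?_
  exact Submodule.sum_mem _ fun S' _ => Submodule.smul_mem _ _ (D.C_mem_lowEq l S' T)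

lemma lowEq_le_low {m l : Λ} (h : m < l) : D.lowEq m ≤ D.low l := by
  apply Submodule.span_mono
  rintro z ⟨n, hn, U, U', rfl⟩
  exact ⟨n, lt_of_le_of_lt hn h, U, U', rfl⟩

lemma mul_low (a : A) {l : Λ} {z : A} (hz : z ∈ D.low l) : a * z ∈ D.low l := by
  refine Submodule.span_induction ?_ ?_ ?_ ?_ hz
  · rintro _ ⟨m, hm, U, U', rfl⟩
    exact D.lowEq_le_low hm (D.mul_C_mem a m U U')
  · simp
  · intro x y _ _ hx hy
    rw [mul_add]; exact Submodule.add_mem _ hx hy
  · intro r x _ hx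
    rw [mul_smul_comm]; exact Submodule.smul_mem _ _ hx

lemma mul_lowEq (a : A) {l : Λ} {z : A} (hz : z ∈ D.lowEq l) : a * z ∈ D.lowEq l := by
  refine Submodule.span_induction ?_ ?_ ?_ ?_ hz
  · rintro _ ⟨m, hm, U, U', rfl⟩
    exact D.lowEq_mono hm (D.mul_C_mem a m U U')
  · simp
  · intro x y _ _ hx hy
    rw [mul_add]; exact Submodule.add_mem _ hx hy
  · intro r x _ hx
    rw [mul_smul_comm]; exact Submodule.smul_mem _ _ hx

lemma σ_low {l : Λ} {z : A} (hz : z ∈ D.low l) : D.σ z ∈ D.low l := by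
  refine Submodule.span_induction ?_ ?_ ?_ ?_ hz
  · rintro _ ⟨m, hm, U, U', rfl⟩
    rw [D.σC]; exact D.C_mem_low hm U' U
  · simp
  · intro x y _ _ hx hy
    rw [map_add]; exact Submodule.add_mem _ hx hy
  · intro r x _ hx
    rw [map_smul]; exact Submodule.smul_mem _ _ hx

lemma σ_lowEq {l : Λ} {z : A} (hz : z ∈ D.lowEq l) : D.σ z ∈ D.lowEq l := by
  refine Submodule.span_induction ?_ ?_ ?_ ?_ hz
  · rintro _ ⟨m, hm, U, U', rfl⟩
    rw [D.σC]; exact D.lowEq_mono hm (D.C_mem_lowEq m U' U)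
  · simp
  · intro x y _ _ hx hy
    rw [map_add]; exact Submodule.add_mem _ hx hy
  · intro r x _ hx
    rw [map_smul]; exact Submodule.smul_mem _ _ hx

lemma low_mul (b : A) {l : Λ} {z : A} (hz : z ∈ D.low l) : z * b ∈ D.low l := by
  have : z * b = D.σ (D.σ b * D.σ z) := by rw [D.σmul, D.σσ, D.σσ]
  rw [this]
  exact D.σ_low (D.mul_low _ (D.σ_low hz))

lemma lowEq_mul (b : A) {l : Λ} {z : A} (hz : z ∈ D.lowEq l) : z * b ∈ D.lowEq l := by
  have : z * b = D.σ (D.σ b * D.σ z) := by rw [D.σmul, D.σσ, D.σσ]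
  rw [this]
  exact D.σ_lowEq (D.mul_lowEq _ (D.σ_lowEq hz))

/-- matrix of `a` on the cell module `l` -/
noncomputable def R (l : Λ) (a : A) : Matrix (M l) (M l) ℂ :=
  fun S' S => D.C.repr (a * D.C ⟨l, (S, S)⟩) ⟨l, (S', S)⟩

open Classical in
lemma repr_sum (l : Λ) (T : M l) (r : M l → ℂ) (S' T' : M l) :
    D.C.repr (∑ S : M l, r S • D.C ⟨l, (S, T)⟩) ⟨l, (S', T')⟩ = if T' = T then r S' else 0 := by
  rw [map_sum, Finsupp.finsetSum_apply]
  simp only [map_smul, Basis.repr_self, Finsupp.smul_apply, Finsupp.single_apply, smul_eq_mul]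
  by_cases hT : T' = T
  · subst hT
    rw [if_pos rfl, Finset.sum_eq_single S']
    · simp
    · intro b _ hb
      rw [if_neg, mul_zero]
      intro h
      apply hb
      simpa using h
    · simp
  · rw [if_neg hT]
    apply Finset.sum_eq_zero
    intro S _
    rw [if_neg, mul_zero]
    intro h
    apply hT
    have : (S, T) = (S', T') := by simpa using h
    exact (congrArg Prod.snd this).symm

lemma mul_C (a : A) (l : Λ) (S T : M l) :
    a * D.C ⟨l, (S, T)⟩ - ∑ S' : M l, D.R l a S' S • D.C ⟨l, (S', T)⟩ ∈ D.low l := by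
  obtain ⟨r, hr⟩ := D.mulC a l
  have : ∀ S' S, D.R l a S' S = r S' S := by
    intro S' S
    have h := hr S S
    have h2 := D.repr_low h ⟨l, (S', S)⟩ (lt_irrefl _)
    rw [map_sub, Finsupp.sub_apply, sub_eq_zero] at h2
    unfold R
    rw [h2, D.repr_sum l S (fun S' => r S' S), if_pos rfl]
  simp only [this]
  exact hr S T

open Classical in
lemma repr_mul_C (a : A) (l : Λ) (S T S' T' : M l) :
    D.C.repr (a * D.C ⟨l, (S, T)⟩) ⟨l, (S', T')⟩ = if T' = T then D.R l a S' S else 0 := by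
  have h := D.repr_low (D.mul_C a l S T) ⟨l, (S', T')⟩ (lt_irrefl _)
  rw [map_sub, Finsupp.sub_apply, sub_eq_zero] at h
  rw [h, D.repr_sum l T (fun S' => D.R l a S' S)]

lemma C_mul (b : A) (l : Λ) (S T : M l) :
    D.C ⟨l, (S, T)⟩ * D.σ b - ∑ T' : M l, D.R l b T' T • D.C ⟨l, (S, T')⟩ ∈ D.low l := by
  have h := D.σ_low (D.mul_C b l T S)
  rw [map_sub, D.σmul, D.σC, map_sum] at h
  simpa only [map_smul, D.σC] using h

open Classical in
lemma repr_C_mul (b : A) (l : Λ) (S T S' T' : M l) :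
    D.C.repr (D.C ⟨l, (S, T)⟩ * D.σ b) ⟨l, (S', T')⟩ = if S' = S then D.R l b T' T else 0 := by
  have h := D.repr_low (D.C_mul b l S T) ⟨l, (S', T')⟩ (lt_irrefl _)
  rw [map_sub, Finsupp.sub_apply, sub_eq_zero] at h
  rw [h, map_sum, Finsupp.finsetSum_apply]
  simp only [map_smul, Basis.repr_self, Finsupp.smul_apply, Finsupp.single_apply, smul_eq_mul]
  by_cases hT : S' = S
  · subst hT
    rw [if_pos rfl, Finset.sum_eq_single T']
    · simp
    · intro b _ hb
      rw [if_neg, mul_zero]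
      intro h
      apply hb
      simpa using h
    · simp
  · rw [if_neg hT]
    apply Finset.sum_eq_zero
    intro T'' _
    rw [if_neg, mul_zero]
    intro h
    apply hT
    have : (S, T'') = (S', T') := by simpa using h
    exact (congrArg Prod.fst this).symm

open Classical in
/-- the cell representation -/
noncomputable def Rhom (l : Λ) : A →ₐ[ℂ] Matrix (M l) (M l) ℂ :=
  AlgHom.ofLinearMap
    { toFun := fun a => D.R l a
      map_add' := fun a b => by
        ext S' S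
        simp only [R, add_mul, map_add, Finsupp.add_apply, Matrix.add_apply]
      map_smul' := fun r a => by
        ext S' S
        simp only [R, smul_mul_assoc, map_smul, Finsupp.smul_apply, Matrix.smul_apply,
          RingHom.id_apply] }
    (by
      ext S' S
      change D.C.repr (1 * D.C ⟨l, (S, S)⟩) ⟨l, (S', S)⟩ = (1 : Matrix (M l) (M l) ℂ) S' S
      rw [one_mul, Basis.repr_self, Finsupp.single_apply, Matrix.one_apply]
      by_cases h : S' = S
      · subst h; simp
      · rw [if_neg h, if_neg]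
        intro h'
        apply h
        have : (S, S) = (S', S) := by simpa using h'
        exact (congrArg Prod.fst this).symm)
    (fun a b => by
      ext S' S
      change D.C.repr (a * b * D.C ⟨l, (S, S)⟩) ⟨l, (S', S)⟩ = (D.R l a * D.R l b) S' S
      have h1 := D.mul_low a (D.mul_C b l S S)
      have h2 := D.repr_low h1 ⟨l, (S', S)⟩ (lt_irrefl _)
      rw [mul_sub, Finset.mul_sum, map_sub, Finsupp.sub_apply, sub_eq_zero, ← mul_assoc] at h2
      rw [h2, map_sum, Finsupp.finsetSum_apply, Matrix.mul_apply]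
      refine Finset.sum_congr rfl fun S'' _ => ?_
      rw [mul_smul_comm, map_smul, Finsupp.smul_apply, D.repr_mul_C, if_pos rfl, smul_eq_mul,
        mul_comm])

lemma Rhom_apply (l : Λ) (a : A) : D.Rhom l a = D.R l a := rfl

/-- character of the cell module -/
noncomputable def chi (l : Λ) (a : A) : ℂ := (D.R l a).trace

/-- trace formula for the bimodule `A` -/
theorem trace_bimodule [Fintype Λ] (a b : A) :
    LinearMap.trace ℂ A (LinearMap.mulLeft ℂ a ∘ₗ LinearMap.mulRight ℂ (D.σ b)) =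
      ∑ l, D.chi l a * D.chi l b := by
  classical
  rw [LinearMap.trace_eq_matrix_trace ℂ D.C, Matrix.trace, Fintype.sum_sigma]
  refine Finset.sum_congr rfl fun l _ => ?_
  rw [Fintype.sum_prod_type]
  unfold chi Matrix.trace
  rw [Finset.sum_mul_sum]
  refine Finset.sum_congr rfl fun S _ => Finset.sum_congr rfl fun T _ => ?_
  rw [Matrix.diag_apply, LinearMap.toMatrix_apply]
  change D.C.repr (a * (D.C ⟨l, (S, T)⟩ * D.σ b)) ⟨l, (S, T)⟩ = _
  have h1 := D.mul_low a (D.C_mul b l S T)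
  have h2 := D.repr_low h1 ⟨l, (S, T)⟩ (lt_irrefl _)
  rw [mul_sub, Finset.mul_sum, map_sub, Finsupp.sub_apply, sub_eq_zero] at h2
  rw [h2, map_sum, Finsupp.finsetSum_apply]
  rw [Finset.sum_eq_single T]
  · rw [mul_smul_comm, map_smul, Finsupp.smul_apply, D.repr_mul_C, if_pos rfl, smul_eq_mul,
      mul_comm]
    rfl
  · intro T' _ hT'
    rw [mul_smul_comm, map_smul, Finsupp.smul_apply, D.repr_mul_C, if_neg (Ne.symm hT'), smul_zero]
  · simp

/-- a cell `m` with `¬ l ≤ m` acts by zero on the cell module `l` -/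
lemma R_C_eq_zero {l m : Λ} (h : ¬ l ≤ m) (U U' : M m) : D.R l (D.C ⟨m, (U, U')⟩) = 0 := by
  ext S' S
  exact D.repr_lowEq (D.lowEq_mul _ (D.C_mem_lowEq m U U')) ⟨l, (S', S)⟩ h

/-- the bilinear form of the cell module -/
lemma R_C_self (l : Λ) (U V S' S : M l) (h : S' ≠ U) : D.R l (D.C ⟨l, (U, V)⟩) S' S = 0 := by
  classical
  have h1 := D.repr_C_mul (D.σ (D.C ⟨l, (S, S)⟩)) l U V S' S
  rw [D.σσ, if_neg h] at h1
  exact h1

lemma R_C_self' (l : Λ) (U U' V S : M l) :
    D.R l (D.C ⟨l, (U, V)⟩) U S = D.R l (D.C ⟨l, (U', V)⟩) U' S := by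
  classical
  have h1 := D.repr_C_mul (D.σ (D.C ⟨l, (S, S)⟩)) l U V U S
  have h2 := D.repr_C_mul (D.σ (D.C ⟨l, (S, S)⟩)) l U' V U' S
  rw [D.σσ, if_pos rfl] at h1 h2
  rw [← h2] at h1
  exact h1

open Classical in
/-- the cell representation on functions -/
noncomputable def cellRep (l : Λ) : A →ₐ[ℂ] Module.End ℂ (M l → ℂ) :=
  (Matrix.toLinAlgEquiv' (R := ℂ) (n := M l)).toAlgHom.comp (D.Rhom l)

lemma cellRep_apply (l : Λ) (a : A) (v : M l → ℂ) : D.cellRep l a v = (D.R l a).mulVec v := rfl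

lemma trace_cellRep (l : Λ) (a : A) :
    LinearMap.trace ℂ (M l → ℂ) (D.cellRep l a) = D.chi l a := by
  classical
  exact Matrix.trace_toLin'_eq (D.R l a)

/-- If `K` is a proper invariant subspace of the cell module `l`, then the cells `m` with
`¬ l < m` act by zero on it. -/
lemma act_zero_of_proper (l : Λ) (K : Submodule ℂ (M l → ℂ)) (hK : K ≠ ⊤)
    (h : ∀ a, ∀ x ∈ K, D.cellRep l a x ∈ K) (m : Λ) (hm : ¬ l < m) (U V : M m)
    (x : M l → ℂ) (hx : x ∈ K) : D.cellRep l (D.C ⟨m, (U, V)⟩) x = 0 := by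
  classical
  by_cases hlm : l ≤ m
  · have : m = l := by
      rcases hlm.lt_or_eq with h' | h'
      · exact absurd h' hm
      · exact h'.symm
    subst this
    by_contra hne
    apply hK
    -- the value is a multiple of the basis vector `U`
    have key : ∀ U' : M m, D.cellRep m (D.C ⟨m, (U', V)⟩) x =
        Pi.single U' (∑ S, D.R m (D.C ⟨m, (U, V)⟩) U S * x S) := by
      intro U'
      rw [cellRep_apply]
      ext S'
      rw [Matrix.mulVec, dotProduct]
      by_cases hS : S' = U'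
      · subst hS
        rw [Pi.single_eq_same]
        refine Finset.sum_congr rfl fun S _ => ?_
        rw [D.R_C_self' m S' U V S]
      · rw [Pi.single_eq_of_ne hS]
        apply Finset.sum_eq_zero
        intro S _
        rw [D.R_C_self m U' V S' S hS, zero_mul]
    set t := ∑ S, D.R m (D.C ⟨m, (U, V)⟩) U S * x S with ht
    have ht0 : t ≠ 0 := by
      intro h0
      apply hne
      rw [key U, h0]
      simp
    rw [Submodule.eq_top_iff']
    intro y
    rw [show y = ∑ U' : M m, (y U' * t⁻¹) • (Pi.single U' t : M m → ℂ) from ?_]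
    · refine Submodule.sum_mem _ fun U' _ => Submodule.smul_mem _ _ ?_
      rw [← key U']
      exact h _ x hx
    · ext S'
      rw [Finset.sum_apply, Finset.sum_eq_single S']
      · simp [ht0]
      · intro b _ hb
        simp [Pi.single_eq_of_ne (Ne.symm hb)]
      · simp
  · rw [cellRep_apply, D.R_C_eq_zero hlm]
    simp

/-- Triangularity: if all cell characters vanish at `b`, then all characters of
finite-dimensional modules vanish at `b`. -/
theorem trace_eq_zero_aux [Finite Λ] (b : A) (hb : ∀ l, D.chi l b = 0) :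
    ∀ (n : ℕ) (X : Set Λ), X.ncard = n → (∀ x ∈ X, ∀ y, x ≤ y → y ∈ X) →
    ∀ (d : ℕ) (L : Type) (_ : AddCommGroup L) (_ : Module ℂ L) (_ : FiniteDimensional ℂ L)
      (ρ : A →ₐ[ℂ] Module.End ℂ L), finrank ℂ L = d →
      (∀ m, m ∉ X → ∀ S T : M m, ∀ v, ρ (D.C ⟨m, (S, T)⟩) v = 0) →
      LinearMap.trace ℂ L (ρ b) = 0 := by
  intro n
  induction n using Nat.strong_induction_on with
  | _ n ihn =>
  intro X hXn hX d
  induction d using Nat.strong_induction_on with
  | _ d ihd =>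
  intro L _ _ _ ρ hd hsupp
  by_cases hall : ∀ m, ∀ S T : M m, ∀ v, ρ (D.C ⟨m, (S, T)⟩) v = 0
  · -- the representation is zero
    have h0 : ρ b = 0 := by
      have : ρ.toLinearMap = 0 := by
        apply D.C.ext
        rintro ⟨m, S, T⟩
        ext v
        exact hall m S T v
      exact LinearMap.congr_fun this b
    rw [h0, map_zero]
  · -- choose a minimal cell acting nontrivially
    obtain ⟨l, hlmem, hlmin⟩ : ∃ l, (∃ S T : M l, ∃ v, ρ (D.C ⟨l, (S, T)⟩) v ≠ 0) ∧
        ∀ m < l, ∀ S T : M m, ∀ v, ρ (D.C ⟨m, (S, T)⟩) v = 0 := by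
      let Y : Set Λ := {l | ∃ S T : M l, ∃ v, ρ (D.C ⟨l, (S, T)⟩) v ≠ 0}
      have hY : Y.Nonempty := by
        push Not at hall
        obtain ⟨m, S, T, v, h⟩ := hall
        exact ⟨m, S, T, v, h⟩
      obtain ⟨l, hl⟩ := (Set.toFinite Y).exists_minimal hY
      refine ⟨l, hl.1, fun m hm S T v => ?_⟩
      by_contra hne
      have := hl.2 (show m ∈ Y from ⟨S, T, v, hne⟩) hm.le
      exact absurd hm (not_lt_of_ge this)
    obtain ⟨S0, T0, v0, hv0⟩ := hlmem
    have hlX : l ∈ X := by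
      by_contra h
      exact hv0 (hsupp l h S0 T0 v0)
    have hlow : ∀ z ∈ D.low l, ρ z = 0 := by
      intro z hz
      refine Submodule.span_induction ?_ ?_ ?_ ?_ hz
      · rintro _ ⟨m, hm, U, U', rfl⟩
        ext v
        exact hlmin m hm U U' v
      · simp
      · intro x y _ _ hx hy
        rw [map_add, hx, hy, add_zero]
      · intro a x _ hx
        rw [map_smul, hx, smul_zero]
    classical
    let π : (M l → ℂ) →ₗ[ℂ] L := Fintype.linearCombination ℂ (fun S => ρ (D.C ⟨l, (S, T0)⟩) v0)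
    have hπ1 : ∀ c, π c = ∑ S, c S • ρ (D.C ⟨l, (S, T0)⟩) v0 := fun c =>
      Fintype.linearCombination_apply ℂ _ c
    have hπ2 : ∀ a c, π (D.cellRep l a c) = ρ a (π c) := by
      intro a c
      rw [hπ1, hπ1, map_sum]
      have h1 : ∀ S, ρ a (c S • ρ (D.C ⟨l, (S, T0)⟩) v0) =
          ∑ S', (D.R l a S' S * c S) • ρ (D.C ⟨l, (S', T0)⟩) v0 := by
        intro S
        have h2 := hlow _ (D.mul_C a l S T0)
        rw [map_sub, sub_eq_zero, map_mul, map_sum] at h2
        have h3 := LinearMap.congr_fun h2 v0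
        rw [map_smul]
        change c S • (ρ a * ρ (D.C ⟨l, (S, T0)⟩)) v0 = _
        rw [h3, LinearMap.sum_apply, Finset.smul_sum]
        refine Finset.sum_congr rfl fun S' _ => ?_
        rw [map_smul, LinearMap.smul_apply, smul_smul, mul_comm]
      simp only [h1]
      rw [Finset.sum_comm]
      refine Finset.sum_congr rfl fun S' _ => ?_
      rw [← Finset.sum_smul]
      rfl
    have hπ0 : π (Pi.single S0 1) ≠ 0 := by
      rw [hπ1, Finset.sum_eq_single S0]
      · simpa using hv0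
      · intro S _ hS
        simp [Pi.single_eq_of_ne hS]
      · simp
    -- kernel
    let K : Submodule ℂ (M l → ℂ) := LinearMap.ker π
    have hKinv : ∀ a, ∀ x ∈ K, D.cellRep l a x ∈ K := by
      intro a x hx
      rw [LinearMap.mem_ker] at hx ⊢
      rw [hπ2, hx, map_zero]
    have hKtop : K ≠ ⊤ := by
      intro h
      apply hπ0
      have : Pi.single S0 1 ∈ K := by rw [h]; exact Submodule.mem_top
      exact this
    have hKtrace : LinearMap.trace ℂ K (subRep (D.cellRep l) K hKinv b) = 0 := by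
      refine ihn ({m | l < m} : Set Λ).ncard ?_ {m | l < m} rfl ?_ _ K _ _ inferInstance
        (subRep (D.cellRep l) K hKinv) rfl ?_
      · rw [← hXn]
        apply Set.ncard_lt_ncard ?_ (Set.toFinite _)
        refine ⟨fun m hm => hX l hlX m (le_of_lt hm), fun hsub => ?_⟩
        exact lt_irrefl l (hsub hlX)
      · intro x hx y hxy
        exact lt_of_lt_of_le hx hxy
      · intro m hm S T v
        apply Subtype.ext
        exact D.act_zero_of_proper l K hKtop hKinv m hm S T v v.2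
    -- range
    let L' : Submodule ℂ L := LinearMap.range π
    have hL'inv : ∀ a, ∀ x ∈ L', ρ a x ∈ L' := by
      rintro a _ ⟨c, rfl⟩
      exact ⟨D.cellRep l a c, hπ2 a c⟩
    have h1 : LinearMap.trace ℂ (M l → ℂ) (D.cellRep l b) =
        LinearMap.trace ℂ K (subRep (D.cellRep l) K hKinv b) +
        LinearMap.trace ℂ L' (subRep ρ L' hL'inv b) := by
      refine trace_of_surjective K (π.rangeRestrict) ?_ (LinearMap.surjective_rangeRestrict π) _ _
        ?_ (hKinv b)
      · intro x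
        rw [LinearMap.mem_ker]
        exact ⟨fun h => Subtype.ext h, fun h => congrArg Subtype.val h⟩
      · intro x
        exact Subtype.ext (hπ2 b x)
    have h2 : LinearMap.trace ℂ L (ρ b) = LinearMap.trace ℂ L' (subRep ρ L' hL'inv b) +
        LinearMap.trace ℂ (L ⧸ L') (quotRep ρ L' hL'inv b) := by
      refine trace_of_surjective L' L'.mkQ ?_ (Submodule.mkQ_surjective L') _ _ ?_ (hL'inv b)
      · intro x
        rw [Submodule.mkQ_apply, Submodule.Quotient.mk_eq_zero]
      · intro x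
        rfl
    have h3 : LinearMap.trace ℂ (L ⧸ L') (quotRep ρ L' hL'inv b) = 0 := by
      refine ihd (finrank ℂ (L ⧸ L')) ?_ (L ⧸ L') _ _ inferInstance (quotRep ρ L' hL'inv) rfl ?_
      · rw [← hd]
        have h4 := Submodule.finrank_quotient_add_finrank L'
        have h5 : 0 < finrank ℂ L' := by
          have : Nontrivial L' := by
            refine ⟨⟨⟨π (Pi.single S0 1), LinearMap.mem_range_self _ _⟩, 0, ?_⟩⟩
            intro h
            exact hπ0 (congrArg Subtype.val h)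
          exact finrank_pos
        omega
      · intro m hm S T v
        obtain ⟨v, rfl⟩ := Submodule.mkQ_surjective L' v
        change L'.mkQ (ρ (D.C ⟨m, (S, T)⟩) v) = 0
        rw [hsupp m hm S T v, map_zero]
    rw [h2, h3, add_zero]
    rw [D.trace_cellRep, hb, hKtrace, zero_add] at h1
    exact h1.symm

theorem trace_eq_zero [Finite Λ] (b : A) (hb : ∀ l, D.chi l b = 0)
    (L : Type) [AddCommGroup L] [Module ℂ L] [FiniteDimensional ℂ L]
    (ρ : A →ₐ[ℂ] Module.End ℂ L) : LinearMap.trace ℂ L (ρ b) = 0 :=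
  D.trace_eq_zero_aux b hb _ Set.univ rfl (fun _ _ _ _ => Set.mem_univ _) _ L _ _ inferInstance ρ rfl
    (fun m hm => absurd (Set.mem_univ m) hm)

end CD

end Pool.Agent.Helper17.Cherednik
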