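import Mathlib

set_option autoImplicit false

/-!
# Restricted rational Cherednik algebras

`V` is the reflection representation `𝔥`, `W` a finite subgroup of `GL(V)`.
-/

namespace Pool.Agent.Helper17.Cherednik

open Module

section Symmetric

variable {k : Type*} [Field k] {M : Type*} [AddCommGroup M] [Module k M]

/-- A linear map with pairwise commuting values in a (possibly noncommutative) algebra extends to
the symmetric algebra. -/
noncomputable def symLift {A : Type*} [Ring A] [Algebra k A] (f : M →ₗ[k] A)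
    (hf : ∀ x y, f x * f y = f y * f x) : SymmetricAlgebra k M →ₐ[k] A :=
  RingCon.liftₐ (TensorAlgebra.symRingCon k M) (TensorAlgebra.lift k f) (by
    refine RingCon.ringConGen_le.2 (fun x y h => ?_)
    induction h with
    | mul_comm x y =>
      rw [RingCon.ker_apply]
      change TensorAlgebra.lift k f _ = TensorAlgebra.lift k f _
      rw [map_mul, map_mul, TensorAlgebra.lift_ι_apply, TensorAlgebra.lift_ι_apply, hf])

@[simp] lemma symLift_ι {A : Type*} [Ring A] [Algebra k A] (f : M →ₗ[k] A)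
    (hf : ∀ x y, f x * f y = f y * f x) (m : M) :
    symLift f hf (SymmetricAlgebra.ι k M m) = f m := by
  have : symLift f hf (SymmetricAlgebra.ι k M m) = TensorAlgebra.lift k f (TensorAlgebra.ι k m) := rfl
  rw [this, TensorAlgebra.lift_ι_apply]

/-- Functoriality of the symmetric algebra. -/
noncomputable def symMap (f : M →ₗ[k] M) : SymmetricAlgebra k M →ₐ[k] SymmetricAlgebra k M :=
  SymmetricAlgebra.lift ((SymmetricAlgebra.ι k M).comp f)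

@[simp] lemma symMap_ι (f : M →ₗ[k] M) (m : M) :
    symMap f (SymmetricAlgebra.ι k M m) = SymmetricAlgebra.ι k M (f m) := by
  unfold symMap
  rw [SymmetricAlgebra.lift_ι_apply]
  rfl

end Symmetric

variable {V : Type} [AddCommGroup V] [Module ℂ V]

/-- A (complex) reflection: an element `s` of `GL(V)` such that `s - 1` has rank one. -/
def IsReflection (s : V ≃ₗ[ℂ] V) : Prop :=
  finrank ℂ (LinearMap.range ((s : V →ₗ[ℂ] V) - LinearMap.id)) = 1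

/-- The (contragredient) action of `w ∈ GL(V)` on the dual space: `(w x)(v) = x (w⁻¹ v)`. -/
def dualAct (w : V ≃ₗ[ℂ] V) : Dual ℂ V →ₗ[ℂ] Dual ℂ V :=
  (w.symm : V →ₗ[ℂ] V).dualMap

/-- The set `S` of reflections of `W`. -/
abbrev Refl (W : Subgroup (V ≃ₗ[ℂ] V)) : Type := {s : W // IsReflection (s : V ≃ₗ[ℂ] V)}

/-- `W` is a complex reflection group: it is generated by its reflections. -/
def IsReflectionGroup (W : Subgroup (V ≃ₗ[ℂ] V)) : Prop :=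
  W = Subgroup.closure {s : V ≃ₗ[ℂ] V | s ∈ W ∧ IsReflection s}

/-- A parameter: a function on the set of reflections constant on conjugacy classes of `W`. -/
def IsParameter (W : Subgroup (V ≃ₗ[ℂ] V)) (c : Refl W → ℂ) : Prop :=
  ∀ s t : Refl W, IsConj (s : W) (t : W) → c s = c t

/-- Generators: vectors `x` of `𝔥*`, vectors `y` of `𝔥`, and group elements. -/
inductive Gen (W : Subgroup (V ≃ₗ[ℂ] V)) : Type
  | x (x : Dual ℂ V) : Gen W
  | y (y : V) : Gen W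
  | g (w : W) : Gen W

/-- The defining relations of the rational Cherednik algebra at `t = 0`.  The first eight say
that we have the crossed product `T(𝔥 ⊕ 𝔥*) ⋊ ℂ W`.  In the last one
`(x - s x)(y) = ⟨α_s, y⟩ ⟨x, α_s^∨⟩`, since `s x = x - ⟨x, α_s^∨⟩ α_s`. -/
inductive Rel (W : Subgroup (V ≃ₗ[ℂ] V)) (c : Refl W → ℂ) :
    FreeAlgebra ℂ (Gen W) → FreeAlgebra ℂ (Gen W) → Prop
  | x_add (x x' : Dual ℂ V) : Rel W c (FreeAlgebra.ι ℂ (Gen.x (x + x')))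
      (FreeAlgebra.ι ℂ (Gen.x x) + FreeAlgebra.ι ℂ (Gen.x x'))
  | x_smul (a : ℂ) (x : Dual ℂ V) : Rel W c (FreeAlgebra.ι ℂ (Gen.x (a • x)))
      (a • FreeAlgebra.ι ℂ (Gen.x x))
  | y_add (y y' : V) : Rel W c (FreeAlgebra.ι ℂ (Gen.y (y + y')))
      (FreeAlgebra.ι ℂ (Gen.y y) + FreeAlgebra.ι ℂ (Gen.y y'))
  | y_smul (a : ℂ) (y : V) : Rel W c (FreeAlgebra.ι ℂ (Gen.y (a • y)))
      (a • FreeAlgebra.ι ℂ (Gen.y y))
  | g_one : Rel W c (FreeAlgebra.ι ℂ (Gen.g 1)) 1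
  | g_mul (w w' : W) : Rel W c (FreeAlgebra.ι ℂ (Gen.g (w * w')))
      (FreeAlgebra.ι ℂ (Gen.g w) * FreeAlgebra.ι ℂ (Gen.g w'))
  | g_x (w : W) (x : Dual ℂ V) : Rel W c
      (FreeAlgebra.ι ℂ (Gen.g w) * FreeAlgebra.ι ℂ (Gen.x x))
      (FreeAlgebra.ι ℂ (Gen.x (dualAct (w : V ≃ₗ[ℂ] V) x)) * FreeAlgebra.ι ℂ (Gen.g w))
  | g_y (w : W) (y : V) : Rel W c
      (FreeAlgebra.ι ℂ (Gen.g w) * FreeAlgebra.ι ℂ (Gen.y y))
      (FreeAlgebra.ι ℂ (Gen.y ((w : V ≃ₗ[ℂ] V) y)) * FreeAlgebra.ι ℂ (Gen.g w))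
  | xx (x x' : Dual ℂ V) : Rel W c
      (FreeAlgebra.ι ℂ (Gen.x x) * FreeAlgebra.ι ℂ (Gen.x x'))
      (FreeAlgebra.ι ℂ (Gen.x x') * FreeAlgebra.ι ℂ (Gen.x x))
  | yy (y y' : V) : Rel W c
      (FreeAlgebra.ι ℂ (Gen.y y) * FreeAlgebra.ι ℂ (Gen.y y'))
      (FreeAlgebra.ι ℂ (Gen.y y') * FreeAlgebra.ι ℂ (Gen.y y))
  | yx (y : V) (x : Dual ℂ V) : Rel W c
      (FreeAlgebra.ι ℂ (Gen.y y) * FreeAlgebra.ι ℂ (Gen.x x) -
        FreeAlgebra.ι ℂ (Gen.x x) * FreeAlgebra.ι ℂ (Gen.y y))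
      (-∑ᶠ s : Refl W, (c s * (x - dualAct ((s : W) : V ≃ₗ[ℂ] V) x) y) •
        FreeAlgebra.ι ℂ (Gen.g (s : W)))

section

variable (W : Subgroup (V ≃ₗ[ℂ] V))

/-- `p ∈ ℂ[𝔥]^W`. -/
def IsInvX (p : SymmetricAlgebra ℂ (Dual ℂ V)) : Prop :=
  ∀ w : W, symMap (dualAct (w : V ≃ₗ[ℂ] V)) p = p

/-- `q ∈ ℂ[𝔥*]^W`. -/
def IsInvY (q : SymmetricAlgebra ℂ V) : Prop :=
  ∀ w : W, symMap ((w : V ≃ₗ[ℂ] V) : V →ₗ[ℂ] V) q = q

end

/-- A finite-dimensional `ℂ`-algebra `A` is cellular (Graham–Lehrer). -/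
def IsCellular (A : Type) [Ring A] [Algebra ℂ A] : Prop :=
  ∃ (Λ : Type) (_ : PartialOrder Λ) (_ : Finite Λ) (M : Λ → Type) (_ : ∀ l, Fintype (M l))
    (C : Basis (Σ l : Λ, M l × M l) ℂ A) (σ : A →ₗ[ℂ] A),
    (∀ a, σ (σ a) = a) ∧ (∀ a b, σ (a * b) = σ b * σ a) ∧
    (∀ l S T, σ (C ⟨l, (S, T)⟩) = C ⟨l, (T, S)⟩) ∧
    ∀ (a : A) (l : Λ), ∃ r : M l → M l → ℂ, ∀ S T : M l,
      a * C ⟨l, (S, T)⟩ - ∑ S' : M l, r S' S • C ⟨l, (S', T)⟩ ∈
        Submodule.span ℂ {z | ∃ m : Λ, m < l ∧ ∃ U U' : M m, z = C ⟨m, (U, U')⟩}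

/-- `W` is real: in a suitable basis of `V` all its elements have real matrices.  Finite real
groups generated by reflections are the finite Coxeter groups. -/
def IsRealGroup (W : Subgroup (V ≃ₗ[ℂ] V)) : Prop :=
  ∃ (n : ℕ) (b : Basis (Fin n) ℂ V), ∀ w ∈ W, ∀ i j, (b.repr (w (b j)) i).im = 0

end Pool.Agent.Helper17.Cherednik
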