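import Mathlib
import Pool.Agent.Helper17.Cherednik.Base

set_option autoImplicit false

namespace Pool.Agent.Helper17.Cherednik

open Module

variable {V : Type} [AddCommGroup V] [Module ℂ V]

/-- The rational Cherednik algebra `H_c` at `t = 0`. -/
def RCA (W : Subgroup (V ≃ₗ[ℂ] V)) (c : Refl W → ℂ) : Type := RingQuot (Rel W c)

section

variable (W : Subgroup (V ≃ₗ[ℂ] V)) (c : Refl W → ℂ)

noncomputable instance instRingRCA : Ring (RCA W c) := inferInstanceAs (Ring (RingQuot (Rel W c)))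

noncomputable instance instAlgebraRCA : Algebra ℂ (RCA W c) :=
  inferInstanceAs (Algebra ℂ (RingQuot (Rel W c)))

/-- The quotient map from the free algebra onto `H_c`. -/
noncomputable def mkH : FreeAlgebra ℂ (Gen W) →ₐ[ℂ] RCA W c := RingQuot.mkAlgHom ℂ (Rel W c)

variable {W c} in
lemma mkH_rel {a b : FreeAlgebra ℂ (Gen W)} (h : Rel W c a b) : mkH W c a = mkH W c b :=
  RingQuot.mkAlgHom_rel ℂ h

/-- The canonical map `𝔥* → H_c`. -/
noncomputable def HX : Dual ℂ V →ₗ[ℂ] RCA W c where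
  toFun x := mkH W c (FreeAlgebra.ι ℂ (Gen.x x))
  map_add' x x' := by rw [mkH_rel (Rel.x_add x x'), map_add]
  map_smul' a x := by rw [mkH_rel (Rel.x_smul a x), map_smul]; rfl

/-- The canonical map `𝔥 → H_c`. -/
noncomputable def HY : V →ₗ[ℂ] RCA W c where
  toFun y := mkH W c (FreeAlgebra.ι ℂ (Gen.y y))
  map_add' y y' := by rw [mkH_rel (Rel.y_add y y'), map_add]
  map_smul' a y := by rw [mkH_rel (Rel.y_smul a y), map_smul]; rfl

/-- The canonical map `W → H_c`. -/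
noncomputable def HG : W →* RCA W c where
  toFun w := mkH W c (FreeAlgebra.ι ℂ (Gen.g w))
  map_one' := by rw [mkH_rel Rel.g_one, map_one]
  map_mul' w w' := by rw [mkH_rel (Rel.g_mul w w'), map_mul]

lemma HX_comm (x x' : Dual ℂ V) : HX W c x * HX W c x' = HX W c x' * HX W c x := by
  change mkH W c _ * mkH W c _ = _
  rw [← map_mul, mkH_rel (Rel.xx x x'), map_mul]; rfl

lemma HY_comm (y y' : V) : HY W c y * HY W c y' = HY W c y' * HY W c y := by
  change mkH W c _ * mkH W c _ = _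
  rw [← map_mul, mkH_rel (Rel.yy y y'), map_mul]; rfl

/-- The canonical algebra homomorphism `ℂ[𝔥] = S(𝔥*) → H_c`. -/
noncomputable def polyX : SymmetricAlgebra ℂ (Dual ℂ V) →ₐ[ℂ] RCA W c :=
  symLift (HX W c) (HX_comm W c)

/-- The canonical algebra homomorphism `ℂ[𝔥*] = S(𝔥) → H_c`. -/
noncomputable def polyY : SymmetricAlgebra ℂ V →ₐ[ℂ] RCA W c :=
  symLift (HY W c) (HY_comm W c)

/-- The relations `p q = 0` for `p ∈ ℂ[𝔥]^W`, `q ∈ ℂ[𝔥*]^W` one of which has zero constant term.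
These products span the ideal of `ℂ[𝔥]^W ⊗ ℂ[𝔥*]^W` of elements all of whose homogeneous
components have positive degree. -/
def RRel (a b : RCA W c) : Prop :=
  ∃ (p : SymmetricAlgebra ℂ (Dual ℂ V)) (q : SymmetricAlgebra ℂ V),
    IsInvX W p ∧ IsInvY W q ∧
    (SymmetricAlgebra.algebraMapInv p = (0 : ℂ) ∨ SymmetricAlgebra.algebraMapInv q = (0 : ℂ)) ∧
    a = polyX W c p * polyY W c q ∧ b = 0

variable {W c} in
lemma RRel.inv (p : SymmetricAlgebra ℂ (Dual ℂ V)) (q : SymmetricAlgebra ℂ V)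
    (hp : IsInvX W p) (hq : IsInvY W q)
    (h : SymmetricAlgebra.algebraMapInv p = (0 : ℂ) ∨
      SymmetricAlgebra.algebraMapInv q = (0 : ℂ)) :
    RRel W c (polyX W c p * polyY W c q) 0 := ⟨p, q, hp, hq, h, rfl, rfl⟩

/-- The restricted rational Cherednik algebra: the quotient of `H_c` by the two-sided ideal
generated by the elements of positive degree of `ℂ[𝔥]^W ⊗ ℂ[𝔥*]^W`. -/
def RRCA : Type := RingQuot (RRel W c)

noncomputable instance instRingRRCA : Ring (RRCA W c) := inferInstanceAs (Ring (RingQuot (RRel W c)))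

noncomputable instance instAlgebraRRCA : Algebra ℂ (RRCA W c) :=
  inferInstanceAs (Algebra ℂ (RingQuot (RRel W c)))

/-- The quotient map `H_c → H̄_c`. -/
noncomputable def toR : RCA W c →ₐ[ℂ] RRCA W c := RingQuot.mkAlgHom ℂ (RRel W c)

end

/-- A signed permutation of the two coordinates of `ℂ²`. -/
noncomputable def sgnPerm (a : Fin 2 → ℤˣ) (τ : Equiv.Perm (Fin 2)) :
    (Fin 2 → ℂ) ≃ₗ[ℂ] (Fin 2 → ℂ) where
  toFun v := fun i => ((a i : ℤ) : ℂ) * v (τ i)
  invFun v := fun i => ((a (τ.symm i) : ℤ) : ℂ) * v (τ.symm i)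
  map_add' v w := by ext i; simp [mul_add]
  map_smul' r v := by ext i; simp; ring
  left_inv v := by
    ext i
    simp only [Equiv.apply_symm_apply, ← mul_assoc]
    rcases Int.units_eq_one_or (a (τ.symm i)) with h | h <;> rw [h] <;> simp
  right_inv v := by
    ext i
    simp only [Equiv.symm_apply_apply, ← mul_assoc]
    rcases Int.units_eq_one_or (a i) with h | h <;> rw [h] <;> simp

lemma sgnPerm_apply (a : Fin 2 → ℤˣ) (τ : Equiv.Perm (Fin 2)) (v : Fin 2 → ℂ) (i : Fin 2) :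
    sgnPerm a τ v i = ((a i : ℤ) : ℂ) * v (τ i) := rfl

lemma sgnPerm_one : sgnPerm 1 1 = 1 := by
  ext v i
  simp [sgnPerm_apply]

lemma sgnPerm_mul (a b : Fin 2 → ℤˣ) (τ υ : Equiv.Perm (Fin 2)) :
    sgnPerm a τ * sgnPerm b υ = sgnPerm (fun i => a i * b (τ i)) (υ * τ) := by
  refine LinearEquiv.ext fun v => funext fun i => ?_
  change ((a i : ℤ) : ℂ) * (((b (τ i) : ℤ) : ℂ) * v (υ (τ i))) = _
  rw [sgnPerm_apply]
  push_cast
  rw [← mul_assoc]
  rfl

/-- The Weyl group of type `B₂`: all signed permutations of the coordinates of `ℂ²`. -/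
noncomputable def B2 : Subgroup ((Fin 2 → ℂ) ≃ₗ[ℂ] (Fin 2 → ℂ)) where
  carrier := {w | ∃ (a : Fin 2 → ℤˣ) (τ : Equiv.Perm (Fin 2)), w = sgnPerm a τ}
  mul_mem' := by
    rintro _ _ ⟨a, τ, rfl⟩ ⟨b, υ, rfl⟩
    exact ⟨_, _, sgnPerm_mul a b τ υ⟩
  one_mem' := ⟨1, 1, sgnPerm_one.symm⟩
  inv_mem' := by
    rintro _ ⟨a, τ, rfl⟩
    refine ⟨fun i => a (τ.symm i), τ⁻¹, ?_⟩
    rw [inv_eq_iff_mul_eq_one, sgnPerm_mul, ← sgnPerm_one]
    congr 1
    · funext i
      simp
    · simp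

end Pool.Agent.Helper17.Cherednik
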