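import Mathlib
import Pool.Agent.Helper17.Cherednik.Cellular
import Pool.Agent.Helper17.Cherednik.Defs

set_option autoImplicit false

namespace Pool.Agent.Helper17.Cherednik

open Module Matrix
open scoped ComplexOrder

/-- trace of the inverse of a matrix of finite order -/
lemma trace_pow_pred {n : Type} [Fintype n] [DecidableEq n] (T : Matrix n n ℂ) (m : ℕ)
    (hT : T ^ (m + 1) = 1) : (T ^ m).trace = star T.trace := by
  set H : Matrix n n ℂ := ∑ k ∈ Finset.range (m + 1), (T ^ k)ᴴ * T ^ k with hH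
  have hpos : H.PosDef := by
    rw [hH, Finset.sum_range_succ']
    rw [pow_zero, conjTranspose_one, mul_one]
    refine PosDef.posSemidef_add (Matrix.posSemidef_sum _ fun k _ => ?_) PosDef.one
    exact posSemidef_conjTranspose_mul_self _
  have hinv : Tᴴ * H * T = H := by
    have h1 : Tᴴ * H * T = ∑ k ∈ Finset.range (m + 1), (T ^ (k + 1))ᴴ * T ^ (k + 1) := by
      rw [hH, Finset.mul_sum, Finset.sum_mul]
      refine Finset.sum_congr rfl fun k _ => ?_
      rw [pow_succ T k, conjTranspose_mul]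
      simp only [Matrix.mul_assoc]
    rw [h1, hH, Finset.sum_range_succ, Finset.sum_range_succ' (fun k => (T ^ k)ᴴ * T ^ k), hT,
      pow_zero]
  have hunit : IsUnit H.det := (Matrix.isUnit_iff_isUnit_det _).1 hpos.isUnit
  have h2 : Tᴴ * H = H * T ^ m := by
    have : Tᴴ * H * T * T ^ m = H * T ^ m := by rw [hinv]
    rw [Matrix.mul_assoc, ← pow_succ', hT, Matrix.mul_one] at this
    exact this
  have h3 : T ^ m = H⁻¹ * (Tᴴ * H) := by
    rw [h2, ← Matrix.mul_assoc, Matrix.nonsing_inv_mul _ hunit, Matrix.one_mul]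
  rw [h3, Matrix.trace_mul_comm, Matrix.mul_assoc, Matrix.mul_nonsing_inv _ hunit, Matrix.mul_one,
    Matrix.trace_conjTranspose]

section

variable {A : Type} [Ring A] [Algebra ℂ A] {L : Type} [AddCommGroup L] [Module ℂ L]

/-- twisted dual representation -/
def dualRep (σ : A →ₗ[ℂ] A) (h1 : σ 1 = 1) (hmul : ∀ a b, σ (a * b) = σ b * σ a)
    (ρ : A →ₐ[ℂ] Module.End ℂ L) : A →ₐ[ℂ] Module.End ℂ (Dual ℂ L) :=
  AlgHom.ofLinearMap
    { toFun := fun a => (ρ (σ a)).dualMap
      map_add' := fun a b => by ext x; simp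
      map_smul' := fun r a => by ext x; simp }
    (by ext x; simp [h1]) (fun a b => by ext x; simp [hmul])

end

theorem CD.trace_eq_zero_of_bimodule {A : Type} [Ring A] [Algebra ℂ A] {Λ : Type}
    [PartialOrder Λ] [Finite Λ] {M : Λ → Type} [∀ l, Fintype (M l)] (D : CD A Λ M)
    (u : A) (m : ℕ) (hu : u ^ (m + 1) = 1)
    (htr : ∀ a, LinearMap.trace ℂ A (LinearMap.mulLeft ℂ a ∘ₗ LinearMap.mulRight ℂ u) = 0)
    (L : Type) [AddCommGroup L] [Module ℂ L] [FiniteDimensional ℂ L]
    (ρ : A →ₐ[ℂ] Module.End ℂ L) : LinearMap.trace ℂ L (ρ u) = 0 := by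
  classical
  have : Fintype Λ := Fintype.ofFinite Λ
  have h1 : D.σ 1 = 1 := by
    have h := D.σmul (D.σ 1) 1
    rw [mul_one, D.σσ, mul_one] at h
    exact h.symm
  have hpow : ∀ (a : A) (n : ℕ), D.σ (a ^ n) = D.σ a ^ n := by
    intro a n
    induction n with
    | zero => simp [h1]
    | succ n ih => rw [pow_succ, D.σmul, ih, ← pow_succ']
  have hb : D.σ u ^ (m + 1) = 1 := by rw [← hpow, hu, h1]
  have hchi : ∀ l, D.chi l (D.σ u) = 0 := by
    have h2 := D.trace_bimodule (D.σ u ^ m) (D.σ u)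
    rw [D.σσ, htr] at h2
    have h3 : ∀ l, D.chi l (D.σ u ^ m) = star (D.chi l (D.σ u)) := by
      intro l
      have h4 := trace_pow_pred (D.Rhom l (D.σ u)) m (by rw [← map_pow, hb, map_one])
      rw [← map_pow] at h4
      exact h4
    have h5 : ∑ l, (Complex.normSq (D.chi l (D.σ u)) : ℂ) = 0 := by
      rw [h2]
      refine Finset.sum_congr rfl fun l _ => ?_
      rw [h3, Complex.normSq_eq_conj_mul_self]
      rfl
    have h6 : ∑ l, Complex.normSq (D.chi l (D.σ u)) = 0 := by exact_mod_cast h5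
    intro l
    have h7 := (Finset.sum_eq_zero_iff_of_nonneg (fun l _ => Complex.normSq_nonneg _)).1 h6 l
      (Finset.mem_univ l)
    exact Complex.normSq_eq_zero.1 h7
  have h8 := D.trace_eq_zero (D.σ u) hchi (Dual ℂ L) (dualRep D.σ h1 D.σmul ρ)
  have h9 : dualRep D.σ h1 D.σmul ρ (D.σ u) = (ρ u).dualMap := by
    change (ρ (D.σ (D.σ u))).dualMap = _
    rw [D.σσ]
  rw [h9] at h8
  rw [← h8]
  exact (LinearMap.trace_transpose' (ρ u)).symm

/-- Main criterion: in a cellular algebra, an element `u` of finite order such that the maps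
`x ↦ a x u` all have trace zero has trace zero on every finite-dimensional module. -/
theorem IsCellular.trace_eq_zero {A : Type} [Ring A] [Algebra ℂ A] (hA : IsCellular A)
    (u : A) (m : ℕ) (hu : u ^ (m + 1) = 1)
    (htr : ∀ a, LinearMap.trace ℂ A (LinearMap.mulLeft ℂ a ∘ₗ LinearMap.mulRight ℂ u) = 0)
    (L : Type) [AddCommGroup L] [Module ℂ L] [FiniteDimensional ℂ L]
    (ρ : A →ₐ[ℂ] Module.End ℂ L) : LinearMap.trace ℂ L (ρ u) = 0 := by
  obtain ⟨Λ, _, _, M, _, C, σ, h1, h2, h3, h4⟩ := hA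
  exact CD.trace_eq_zero_of_bimodule ⟨C, σ, h1, h2, h3, h4⟩ u m hu htr L ρ

end Pool.Agent.Helper17.Cherednik
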