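import Mathlib
import Pool.Agent.Helper17.Cherednik.Defs

set_option autoImplicit false

namespace Pool.Agent.Helper17.Cherednik

open Module

section

variable {k : Type*} [Field k] {M : Type*} [AddCommGroup M] [Module k M]

lemma symHom_ext {A : Type*} [Ring A] [Algebra k A] (F G : SymmetricAlgebra k M →ₐ[k] A)
    (h : ∀ m, F (SymmetricAlgebra.ι k M m) = G (SymmetricAlgebra.ι k M m)) : F = G := by
  refine DFunLike.ext _ _ fun p => ?_
  induction p using SymmetricAlgebra.induction with
  | algebraMap r => rw [AlgHom.commutes, AlgHom.commutes]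
  | ι x => exact h x
  | mul a b ha hb => rw [map_mul, map_mul, ha, hb]
  | add a b ha hb => rw [map_add, map_add, ha, hb]

lemma symMap_comp (f g : M →ₗ[k] M) (p : SymmetricAlgebra k M) :
    symMap (f ∘ₗ g) p = symMap f (symMap g p) := by
  have : symMap (f ∘ₗ g) = (symMap f).comp (symMap g) := by
    apply symHom_ext
    intro m
    simp
  rw [this]; rfl

lemma symMap_id (p : SymmetricAlgebra k M) : symMap (LinearMap.id : M →ₗ[k] M) p = p := by
  have : symMap (LinearMap.id : M →ₗ[k] M) = AlgHom.id k _ := by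
    apply symHom_ext
    intro m
    simp
  rw [this]; rfl

lemma algebraMapInv_symMap (f : M →ₗ[k] M) (p : SymmetricAlgebra k M) :
    SymmetricAlgebra.algebraMapInv (symMap f p) =
      (SymmetricAlgebra.algebraMapInv p : k) := by
  have : (SymmetricAlgebra.algebraMapInv (R := k) (M := M)).comp (symMap f)
      = SymmetricAlgebra.algebraMapInv := by
    apply symHom_ext
    intro m
    simp [SymmetricAlgebra.algebraMapInv_ι]
  exact DFunLike.congr_fun this p

/-- `m ↦ m - f(m) γ`. -/
noncomputable def refl (f : Dual k M) (γ : M) : M →ₗ[k] M := LinearMap.id - f.smulRight γ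

@[simp] lemma refl_apply (f : Dual k M) (γ m : M) : refl f γ m = m - f m • γ := rfl

/-- The algebra homomorphism `p ↦ p - (∂ p) δ` into `S[δ]/(δ² = γ δ)`. -/
noncomputable def ddHom (f : Dual k M) (γ : M) :
    SymmetricAlgebra k M →ₐ[k]
      QuadraticAlgebra (SymmetricAlgebra k M) 0 (SymmetricAlgebra.ι k M γ) :=
  SymmetricAlgebra.lift
    { toFun := fun m => ⟨SymmetricAlgebra.ι k M m, -algebraMap k _ (f m)⟩
      map_add' := fun x y => by
        refine QuadraticAlgebra.ext ?_ ?_
        · rw [QuadraticAlgebra.re_add, map_add]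
        · rw [QuadraticAlgebra.im_add]
          change -(algebraMap k (SymmetricAlgebra k M)) (f (x + y)) =
            -(algebraMap k (SymmetricAlgebra k M)) (f x) +
              -(algebraMap k (SymmetricAlgebra k M)) (f y)
          rw [map_add, map_add, neg_add]
      map_smul' := fun r x => by
        rw [RingHom.id_apply, QuadraticAlgebra.smul_mk, map_smul, map_smul, smul_neg,
          smul_eq_mul, map_mul, ← Algebra.smul_def] }

/-- divided difference operator attached to the reflection `m ↦ m - f(m) γ`. -/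
noncomputable def dd (f : Dual k M) (γ : M) : SymmetricAlgebra k M →ₗ[k] SymmetricAlgebra k M where
  toFun p := -(ddHom f γ p).im
  map_add' p q := by rw [map_add, QuadraticAlgebra.im_add]; ring
  map_smul' r p := by
    rw [map_smul, QuadraticAlgebra.im_smul, RingHom.id_apply, smul_neg]

lemma ddHom_ι (f : Dual k M) (γ m : M) : ddHom f γ (SymmetricAlgebra.ι k M m) =
    ⟨SymmetricAlgebra.ι k M m, -algebraMap k _ (f m)⟩ := by
  unfold ddHom
  rw [SymmetricAlgebra.lift_ι_apply]
  rfl

lemma ddHom_algebraMap (f : Dual k M) (γ : M) (r : k) : ddHom f γ (algebraMap k _ r) =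
    ⟨algebraMap k _ r, 0⟩ := by
  rw [AlgHom.commutes]
  rfl

lemma ddHom_re (f : Dual k M) (γ : M) (p : SymmetricAlgebra k M) : (ddHom f γ p).re = p := by
  induction p using SymmetricAlgebra.induction with
  | algebraMap r => rw [ddHom_algebraMap]
  | ι x => rw [ddHom_ι]
  | mul a b ha hb => rw [map_mul, QuadraticAlgebra.re_mul, ha, hb]; ring
  | add a b ha hb => rw [map_add, QuadraticAlgebra.re_add, ha, hb]

lemma dd_algebraMap (f : Dual k M) (γ : M) (r : k) : dd f γ (algebraMap k _ r) = 0 := by
  change -(ddHom f γ (algebraMap k _ r)).im = 0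
  rw [ddHom_algebraMap]; simp

@[simp] lemma dd_one (f : Dual k M) (γ : M) : dd f γ 1 = 0 := by
  rw [← map_one (algebraMap k _)]; exact dd_algebraMap f γ 1

@[simp] lemma dd_ι (f : Dual k M) (γ m : M) : dd f γ (SymmetricAlgebra.ι k M m) =
    algebraMap k _ (f m) := by
  change -(ddHom f γ (SymmetricAlgebra.ι k M m)).im = _
  rw [ddHom_ι]; simp

lemma ι_mul_dd (f : Dual k M) (γ : M) (p : SymmetricAlgebra k M) :
    SymmetricAlgebra.ι k M γ * dd f γ p = p - symMap (refl f γ) p := by
  induction p using SymmetricAlgebra.induction with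
  | algebraMap r => rw [dd_algebraMap, AlgHom.commutes]; simp
  | ι x =>
    rw [dd_ι, symMap_ι, refl_apply, map_sub, map_smul, Algebra.smul_def]
    ring
  | mul a b ha hb =>
    have h1 : dd f γ (a * b) = a * dd f γ b + dd f γ a * (b - SymmetricAlgebra.ι k M γ * dd f γ b) := by
      change -(ddHom f γ (a * b)).im = a * -(ddHom f γ b).im + -(ddHom f γ a).im *
        (b - SymmetricAlgebra.ι k M γ * -(ddHom f γ b).im)
      rw [map_mul, QuadraticAlgebra.im_mul, ddHom_re, ddHom_re]
      ring
    rw [h1, map_mul]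
    have ha' : symMap (refl f γ) a = a - SymmetricAlgebra.ι k M γ * dd f γ a := by rw [ha]; ring
    have hb' : symMap (refl f γ) b = b - SymmetricAlgebra.ι k M γ * dd f γ b := by rw [hb]; ring
    rw [ha', hb']
    ring
  | add a b ha hb => rw [map_add, mul_add, ha, hb, map_add]; ring

lemma symMap_refl (f : Dual k M) (γ : M) (p : SymmetricAlgebra k M) :
    symMap (refl f γ) p = p - SymmetricAlgebra.ι k M γ * dd f γ p := by
  rw [ι_mul_dd]; ring

lemma dd_mul (f : Dual k M) (γ : M) (a b : SymmetricAlgebra k M) :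
    dd f γ (a * b) = a * dd f γ b + dd f γ a * symMap (refl f γ) b := by
  rw [symMap_refl]
  change -(ddHom f γ (a * b)).im = a * -(ddHom f γ b).im + -(ddHom f γ a).im *
    (b - SymmetricAlgebra.ι k M γ * -(ddHom f γ b).im)
  rw [map_mul, QuadraticAlgebra.im_mul, ddHom_re, ddHom_re]
  ring

lemma dd_mul' (f : Dual k M) (γ : M) (a b : SymmetricAlgebra k M) :
    dd f γ (a * b) = dd f γ a * b + symMap (refl f γ) a * dd f γ b := by
  rw [mul_comm a b, dd_mul]; ring

/-- A twisted derivation is determined by its values on generators. -/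
lemma twisted_ext (g : M →ₗ[k] M) (D D' : SymmetricAlgebra k M →ₗ[k] SymmetricAlgebra k M)
    (h1 : D 1 = 0) (h1' : D' 1 = 0)
    (hm : ∀ a b, D (a * b) = a * D b + D a * symMap g b)
    (hm' : ∀ a b, D' (a * b) = a * D' b + D' a * symMap g b)
    (h : ∀ m, D (SymmetricAlgebra.ι k M m) = D' (SymmetricAlgebra.ι k M m)) : D = D' := by
  ext p
  induction p using SymmetricAlgebra.induction with
  | algebraMap r =>
    rw [Algebra.algebraMap_eq_smul_one, map_smul, map_smul, h1, h1']
  | ι x => exact h x
  | mul a b ha hb => rw [hm, hm', ha, hb]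
  | add a b ha hb => rw [map_add, map_add, ha, hb]

end

end Pool.Agent.Helper17.Cherednik
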