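import Mathlib
import Pool.Agent.Helper17.Cherednik.Sym

set_option autoImplicit false

/-! Coinvariant algebra of a linear action of a finite group. -/

namespace Pool.Agent.Helper17.Cherednik

open Module

section

variable {W : Type} [Group W] {M : Type} [AddCommGroup M] [Module ℂ M]
  (ρ : Representation ℂ W M)

/-- ideal generated by the invariants with zero constant term -/
noncomputable def invIdeal : Ideal (SymmetricAlgebra ℂ M) :=
  Ideal.span {p | (∀ w, symMap (ρ w) p = p) ∧ SymmetricAlgebra.algebraMapInv p = (0 : ℂ)}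

/-- coinvariant algebra -/
abbrev Coinv : Type := SymmetricAlgebra ℂ M ⧸ invIdeal ρ

/-- quotient map -/
noncomputable def cmk : SymmetricAlgebra ℂ M →ₐ[ℂ] Coinv ρ := Ideal.Quotient.mkₐ ℂ (invIdeal ρ)

lemma cmk_surjective : Function.Surjective (cmk ρ) := Ideal.Quotient.mkₐ_surjective ℂ _

lemma cmk_eq_zero_iff (p : SymmetricAlgebra ℂ M) : cmk ρ p = 0 ↔ p ∈ invIdeal ρ :=
  Ideal.Quotient.eq_zero_iff_mem

lemma cmk_eq_zero {p : SymmetricAlgebra ℂ M} (h : ∀ w, symMap (ρ w) p = p)
    (h0 : SymmetricAlgebra.algebraMapInv p = (0 : ℂ)) : cmk ρ p = 0 := by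
  rw [cmk_eq_zero_iff]
  exact Ideal.subset_span ⟨h, h0⟩

/-- induction principle for membership in the invariant ideal -/
lemma invIdeal_le {J : Submodule ℂ (SymmetricAlgebra ℂ M)}
    (h : ∀ a p, (∀ w, symMap (ρ w) p = p) → SymmetricAlgebra.algebraMapInv p = (0 : ℂ) →
      a * p ∈ J) : ∀ q ∈ invIdeal ρ, q ∈ J := by
  intro q hq
  unfold invIdeal at hq
  rw [Ideal.span, Submodule.mem_span_iff_exists_finset_subset] at hq
  obtain ⟨f, t, ht, -, rfl⟩ := hq
  refine Submodule.sum_mem _ fun p hp => ?_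
  exact h (f p) p (ht hp).1 (ht hp).2

/-- `W` acts on the coinvariant algebra -/
noncomputable def cAct (w : W) : Coinv ρ →ₐ[ℂ] Coinv ρ :=
  Ideal.Quotient.liftₐ (invIdeal ρ) ((cmk ρ).comp (symMap (ρ w))) (by
    intro a ha
    rw [AlgHom.comp_apply, cmk_eq_zero_iff]
    have := invIdeal_le ρ (J := (Submodule.restrictScalars ℂ (invIdeal ρ)).comap
      (symMap (ρ w)).toLinearMap) ?_ a ha
    · exact this
    · intro a p h h0
      change symMap (ρ w) (a * p) ∈ invIdeal ρ
      rw [map_mul, h w]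
      exact Ideal.mul_mem_left _ _ (Ideal.subset_span ⟨h, h0⟩))

@[simp] lemma cAct_cmk (w : W) (p : SymmetricAlgebra ℂ M) :
    cAct ρ w (cmk ρ p) = cmk ρ (symMap (ρ w) p) := rfl

lemma cAct_one (q : Coinv ρ) : cAct ρ 1 q = q := by
  obtain ⟨p, rfl⟩ := cmk_surjective ρ q
  rw [cAct_cmk, map_one]
  exact congrArg _ (symMap_id p)

lemma cAct_mul (w w' : W) (q : Coinv ρ) : cAct ρ (w * w') q = cAct ρ w (cAct ρ w' q) := by
  obtain ⟨p, rfl⟩ := cmk_surjective ρ q
  rw [cAct_cmk, cAct_cmk, cAct_cmk, map_mul]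
  exact congrArg _ (symMap_comp (ρ w) (ρ w') p)

lemma ι_ne_zero {m : M} (h : m ≠ 0) : SymmetricAlgebra.ι ℂ M m ≠ 0 := by
  obtain ⟨f, hf⟩ : ∃ f : Dual ℂ M, f m ≠ 0 := by
    by_contra hcon
    push Not at hcon
    exact h ((Module.forall_dual_apply_eq_zero_iff ℂ m).1 hcon)
  intro h0
  have h1 := congrArg (SymmetricAlgebra.lift (A := Polynomial ℂ)
    ({ toFun := fun m => Polynomial.C (f m) * Polynomial.X
       map_add' := fun x y => by rw [map_add, Polynomial.C_add, add_mul]
       map_smul' := fun r x => by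
        rw [map_smul, smul_eq_mul, Polynomial.C_mul, mul_assoc, RingHom.id_apply,
          Polynomial.smul_eq_C_mul] } : M →ₗ[ℂ] Polynomial ℂ)) h0
  rw [SymmetricAlgebra.lift_ι_apply, map_zero] at h1
  have h2 := congrArg (Polynomial.eval 1) h1
  simp at h2
  exact hf h2

lemma dd_eq_zero_of_inv {f : Dual ℂ M} {γ : M} (hγ : γ ≠ 0) {p : SymmetricAlgebra ℂ M}
    (hp : symMap (refl f γ) p = p) : dd f γ p = 0 := by
  have h := ι_mul_dd f γ p
  rw [hp, sub_self] at h
  rcases mul_eq_zero.1 h with h | h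
  · exact absurd h (ι_ne_zero hγ)
  · exact h

lemma dd_mem_invIdeal {f : Dual ℂ M} {γ : M} (hγ : γ ≠ 0) (w : W) (hw : ρ w = refl f γ)
    {p : SymmetricAlgebra ℂ M} (hp : p ∈ invIdeal ρ) : dd f γ p ∈ invIdeal ρ := by
  refine invIdeal_le ρ (J := (Submodule.restrictScalars ℂ (invIdeal ρ)).comap (dd f γ)) ?_ p hp
  intro a p h h0
  change dd f γ (a * p) ∈ invIdeal ρ
  have h1 := h w
  rw [hw] at h1
  rw [dd_mul, dd_eq_zero_of_inv hγ h1, h1, mul_zero, zero_add]
  exact Ideal.mul_mem_left _ _ (Ideal.subset_span ⟨h, h0⟩)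

/-- divided difference on the coinvariant algebra (for `f, γ` describing an element of `W`) -/
noncomputable def cdd (f : Dual ℂ M) (γ : M) (hγ : γ ≠ 0) (w : W) (hw : ρ w = refl f γ) :
    Coinv ρ →ₗ[ℂ] Coinv ρ where
  toFun q := cmk ρ (dd f γ (Function.surjInv (cmk_surjective ρ) q))
  map_add' q q' := by
    rw [← map_add, ← map_add, ← sub_eq_zero, ← map_sub, cmk_eq_zero_iff, ← map_sub]
    apply dd_mem_invIdeal ρ hγ w hw
    rw [← cmk_eq_zero_iff, map_sub, map_add]
    simp only [Function.surjInv_eq, sub_self]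
  map_smul' r q := by
    rw [RingHom.id_apply, ← map_smul, ← map_smul, ← sub_eq_zero, ← map_sub, cmk_eq_zero_iff,
      ← map_sub]
    apply dd_mem_invIdeal ρ hγ w hw
    rw [← cmk_eq_zero_iff, map_sub, map_smul]
    simp only [Function.surjInv_eq, sub_self]

@[simp] lemma cdd_cmk (f : Dual ℂ M) (γ : M) (hγ : γ ≠ 0) (w : W) (hw : ρ w = refl f γ)
    (p : SymmetricAlgebra ℂ M) : cdd ρ f γ hγ w hw (cmk ρ p) = cmk ρ (dd f γ p) := by
  change cmk ρ (dd f γ (Function.surjInv (cmk_surjective ρ) (cmk ρ p))) = _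
  rw [← sub_eq_zero, ← map_sub, cmk_eq_zero_iff, ← map_sub]
  apply dd_mem_invIdeal ρ hγ w hw
  rw [← cmk_eq_zero_iff, map_sub]
  simp only [Function.surjInv_eq, sub_self]

/-- every element of the coinvariant algebra is integral over `ℂ` -/
lemma isIntegral_coinv [Finite W] (q : Coinv ρ) : IsIntegral ℂ q := by
  obtain ⟨b, rfl⟩ := cmk_surjective ρ q
  have : Fintype W := Fintype.ofFinite W
  let act : MulSemiringAction W (SymmetricAlgebra ℂ M) :=
    { smul := fun w p => symMap (ρ w) p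
      one_smul := fun p => by
        change symMap (ρ 1) p = p
        rw [map_one]; exact symMap_id p
      mul_smul := fun w w' p => by
        change symMap (ρ (w * w')) p = symMap (ρ w) (symMap (ρ w') p)
        rw [map_mul]; exact symMap_comp (ρ w) (ρ w') p
      smul_zero := fun w => map_zero (symMap (ρ w))
      smul_add := fun w p q => map_add (symMap (ρ w)) p q
      smul_one := fun w => map_one (symMap (ρ w))
      smul_mul := fun w p q => map_mul (symMap (ρ w)) p q }
  have hsmul : ∀ (w : W) (p : SymmetricAlgebra ℂ M), w • p = symMap (ρ w) p := fun _ _ => rfl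
  set P := MulSemiringAction.charpoly W b with hP
  have hmap : P.map ((cmk ρ : SymmetricAlgebra ℂ M →ₐ[ℂ] Coinv ρ) : _ →+* _) =
      (P.map ((SymmetricAlgebra.algebraMapInv : SymmetricAlgebra ℂ M →ₐ[ℂ] ℂ) : _ →+* ℂ)).map
        (algebraMap ℂ (Coinv ρ)) := by
    ext n
    rw [Polynomial.coeff_map, Polynomial.coeff_map, Polynomial.coeff_map]
    change cmk ρ (P.coeff n) = algebraMap ℂ (Coinv ρ) (SymmetricAlgebra.algebraMapInv (P.coeff n))
    rw [← AlgHom.commutes (cmk ρ), ← sub_eq_zero, ← map_sub]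
    apply cmk_eq_zero
    · intro w
      rw [map_sub, AlgHom.commutes]
      congr 1
      exact MulSemiringAction.smul_coeff_charpoly b n w
    · rw [map_sub, AlgHom.commutes]
      simp
  refine ⟨P.map ((SymmetricAlgebra.algebraMapInv : SymmetricAlgebra ℂ M →ₐ[ℂ] ℂ) : _ →+* ℂ),
    (MulSemiringAction.monic_charpoly W b).map _, ?_⟩
  rw [← Polynomial.eval_map, ← hmap, Polynomial.eval_map]
  change Polynomial.eval₂ (cmk ρ).toRingHom ((cmk ρ).toRingHom b) P = 0
  rw [Polynomial.eval₂_hom, MulSemiringAction.eval_charpoly W b, map_zero]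

/-- the coinvariant algebra is finite-dimensional -/
lemma finite_coinv [Finite W] [FiniteDimensional ℂ M] : Module.Finite ℂ (Coinv ρ) := by
  have h1 : Algebra.FiniteType ℂ (SymmetricAlgebra ℂ M) :=
    Algebra.FiniteType.equiv inferInstance
      (SymmetricAlgebra.equivMvPolynomial (Module.finBasis ℂ M)).symm
  have h2 : Algebra.FiniteType ℂ (Coinv ρ) :=
    Algebra.FiniteType.of_surjective (cmk ρ) (cmk_surjective ρ)
  have h3 : Algebra.IsIntegral ℂ (Coinv ρ) := ⟨isIntegral_coinv ρ⟩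
  exact Algebra.IsIntegral.finite

end

end Pool.Agent.Helper17.Cherednik
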