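import Mathlib
import Pool.Agent.Helper17.Cherednik.Defs
import Pool.Agent.Helper17.Cherednik.Sym
import Pool.Agent.Helper17.Cherednik.Coinv

set_option autoImplicit false

namespace Pool.Agent.Helper17.Cherednik

open Module

variable {V : Type} [AddCommGroup V] [Module ℂ V]

/-- root and coroots of a reflection -/
structure RootData (s : V ≃ₗ[ℂ] V) where
  α : Dual ℂ V
  γ : V
  β : V
  hs : ∀ v, s v = v - α v • γ
  hs' : ∀ v, s.symm v = v - α v • β
  hα : α ≠ 0
  hγ : γ ≠ 0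
  hβ : β ≠ 0

lemma exists_rootData {s : V ≃ₗ[ℂ] V} (h : IsReflection s) : Nonempty (RootData s) := by
  unfold IsReflection at h
  rw [finrank_eq_one_iff'] at h
  obtain ⟨⟨γ, hγr⟩, hγ0, hγ⟩ := h
  have hγ0' : γ ≠ 0 := fun h0 => hγ0 (Subtype.ext h0)
  obtain ⟨g, hg⟩ : ∃ g : Dual ℂ V, g γ = 1 := by
    obtain ⟨f, hf⟩ : ∃ f : Dual ℂ V, f γ ≠ 0 := by
      by_contra hcon
      push Not at hcon
      exact hγ0' ((Module.forall_dual_apply_eq_zero_iff ℂ γ).1 hcon)
    exact ⟨(f γ)⁻¹ • f, by simp [hf]⟩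
  have key : ∀ v, s v - v = g (s v - v) • γ := by
    intro v
    obtain ⟨c, hc⟩ := hγ ⟨s v - v, ⟨v, by simp⟩⟩
    have hc' : c • γ = s v - v := congrArg Subtype.val hc
    rw [← hc', map_smul, hg, smul_eq_mul, mul_one]
  let α : Dual ℂ V := -(g ∘ₗ ((s : V →ₗ[ℂ] V) - LinearMap.id))
  have hα1 : ∀ v, α v = -g (s v - v) := fun v => rfl
  have hs : ∀ v, s v = v - α v • γ := by
    intro v
    rw [hα1, neg_smul, sub_neg_eq_add, ← key]
    abel
  have hα : α ≠ 0 := by
    intro h0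
    obtain ⟨v, hv⟩ := hγr
    have h1 : s v = v := by
      rw [hs v, h0]; simp
    apply hγ0'
    rw [← hv]
    simp [h1]
  have hd : (1 - α γ) ≠ 0 := by
    intro h0
    have h1 : s γ = 0 := by
      rw [hs γ, ← one_smul ℂ γ, map_smul, smul_eq_mul, one_mul, smul_smul, mul_one, ← sub_smul,
        h0, zero_smul]
    exact hγ0' ((map_eq_zero_iff s s.injective).1 h1)
  refine ⟨⟨α, γ, -(1 - α γ)⁻¹ • γ, hs, ?_, hα, hγ0', ?_⟩⟩
  · intro v
    rw [LinearEquiv.symm_apply_eq, hs]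
    simp only [map_sub, map_smul, smul_eq_mul, smul_smul]
    have h2 : (α v * -(1 - α γ)⁻¹ + (α v - α v * -(1 - α γ)⁻¹ * α γ)) = 0 := by
      field_simp
      ring
    rw [sub_sub, ← add_smul, h2, zero_smul, sub_zero]
  · exact smul_ne_zero (neg_ne_zero.2 (inv_ne_zero hd)) hγ0'

/-- a reflection of finite order is not a transvection -/
lemma RootData.pairing_ne_zero {s : V ≃ₗ[ℂ] V} (R : RootData s) (n : ℕ) (hn : 0 < n)
    (h : s ^ n = 1) : R.α R.β ≠ 0 := by
  intro h0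
  have key : ∀ (k : ℕ) (v : V), (s ^ k)⁻¹ v = v - ((k : ℂ) * R.α v) • R.β := by
    intro k
    induction k with
    | zero => intro v; simp
    | succ k ih =>
      intro v
      have : (s ^ (k + 1))⁻¹ v = (s ^ k)⁻¹ (s.symm v) := by
        rw [pow_succ', mul_inv_rev]; rfl
      rw [this, ih, R.hs', map_sub, map_smul, h0]
      push_cast
      rw [smul_zero, sub_zero, sub_sub, ← add_smul]
      ring_nf
  have h1 : ∀ v, R.α v = 0 := by
    intro v
    have h2 := key n v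
    rw [h, inv_one] at h2
    change v = _ at h2
    have h3 : ((n : ℂ) * R.α v) • R.β = 0 := by
      have := sub_eq_self.1 h2.symm
      exact this
    rcases smul_eq_zero.1 h3 with h4 | h4
    · rcases mul_eq_zero.1 h4 with h5 | h5
      · exact absurd (Nat.cast_eq_zero.1 h5) (by omega)
      · exact h5
    · exact absurd h4 R.hβ
  exact R.hα (LinearMap.ext h1)

/-- a choice of root data -/
noncomputable def rootData {W : Subgroup (V ≃ₗ[ℂ] V)} (s : Refl W) :
    RootData ((s : W) : V ≃ₗ[ℂ] V) := (exists_rootData s.2).some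

/-- reflection representation as a representation of `W` -/
def repY (W : Subgroup (V ≃ₗ[ℂ] V)) : Representation ℂ W V where
  toFun w := ((w : V ≃ₗ[ℂ] V) : V →ₗ[ℂ] V)
  map_one' := rfl
  map_mul' _ _ := rfl

/-- dual of the reflection representation -/
def repX (W : Subgroup (V ≃ₗ[ℂ] V)) : Representation ℂ W (Dual ℂ V) where
  toFun w := dualAct (w : V ≃ₗ[ℂ] V)
  map_one' := rfl
  map_mul' _ _ := rfl

lemma repX_apply (W : Subgroup (V ≃ₗ[ℂ] V)) (w : W) (x : Dual ℂ V) (v : V) :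
    repX W w x v = x ((w : V ≃ₗ[ℂ] V).symm v) := rfl

/-- evaluation at a vector -/
def evalAt (v : V) : Dual ℂ (Dual ℂ V) := Dual.eval ℂ V v

@[simp] lemma evalAt_apply (v : V) (x : Dual ℂ V) : evalAt v x = x v := rfl

lemma repX_refl {W : Subgroup (V ≃ₗ[ℂ] V)} (s : Refl W) :
    repX W (s : W) = refl (evalAt (rootData s).β) (rootData s).α := by
  ext x v
  rw [repX_apply, (rootData s).hs']
  simp [mul_comm]

lemma repY_refl {W : Subgroup (V ≃ₗ[ℂ] V)} (s : Refl W) :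
    repY W (s : W) = refl (rootData s).α (rootData s).γ := by
  ext v
  exact (rootData s).hs v

lemma repY_refl_inv {W : Subgroup (V ≃ₗ[ℂ] V)} (s : Refl W) :
    repY W (s : W)⁻¹ = refl (rootData s).α (rootData s).β := by
  ext v
  exact (rootData s).hs' v

lemma sub_dualAct {W : Subgroup (V ≃ₗ[ℂ] V)} (s : Refl W) (x : Dual ℂ V) (y : V) :
    (x - dualAct ((s : W) : V ≃ₗ[ℂ] V) x) y = x (rootData s).β * (rootData s).α y := by
  have h : dualAct ((s : W) : V ≃ₗ[ℂ] V) x y = x (((s : W) : V ≃ₗ[ℂ] V).symm y) := rfl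
  rw [LinearMap.sub_apply, h, (rootData s).hs', map_sub, map_smul, smul_eq_mul]
  ring

lemma isReflection_conj {s w : V ≃ₗ[ℂ] V} (h : IsReflection s) : IsReflection (w * s * w⁻¹) := by
  unfold IsReflection at h ⊢
  have h1 : ((w * s * w⁻¹ : V ≃ₗ[ℂ] V) : V →ₗ[ℂ] V) - LinearMap.id =
      (w : V →ₗ[ℂ] V) ∘ₗ (((s : V →ₗ[ℂ] V) - LinearMap.id) ∘ₗ (w.symm : V →ₗ[ℂ] V)) := by
    ext v
    change w (s (w.symm v)) - v = w (s (w.symm v) - w.symm v)
    rw [map_sub, LinearEquiv.apply_symm_apply]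
  rw [h1, LinearMap.range_comp, LinearMap.range_comp, LinearEquiv.range, Submodule.map_top]
  rw [← h]
  exact LinearEquiv.finrank_map_eq w _

/-- conjugate of a reflection -/
def conjRefl {W : Subgroup (V ≃ₗ[ℂ] V)} (w : W) (s : Refl W) : Refl W :=
  ⟨w * s * w⁻¹, isReflection_conj s.2⟩

lemma conjRefl_inv {W : Subgroup (V ≃ₗ[ℂ] V)} (w : W) (s : Refl W) :
    conjRefl w⁻¹ (conjRefl w s) = s := by
  apply Subtype.ext
  change w⁻¹ * (w * s * w⁻¹) * w⁻¹⁻¹ = s
  group

lemma conjRefl_inv' {W : Subgroup (V ≃ₗ[ℂ] V)} (w : W) (s : Refl W) :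
    conjRefl w (conjRefl w⁻¹ s) = s := by
  apply Subtype.ext
  change w * (w⁻¹ * s * w⁻¹⁻¹) * w⁻¹ = s
  group

/-- conjugation as an equivalence -/
def conjEquiv {W : Subgroup (V ≃ₗ[ℂ] V)} (w : W) : Refl W ≃ Refl W where
  toFun := conjRefl w
  invFun := conjRefl w⁻¹
  left_inv := conjRefl_inv w
  right_inv := conjRefl_inv' w

lemma IsParameter.conj {W : Subgroup (V ≃ₗ[ℂ] V)} {c : Refl W → ℂ} (hc : IsParameter W c)
    (w : W) (s : Refl W) : c (conjRefl w s) = c s := by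
  refine (hc s (conjRefl w s) ?_).symm
  exact isConj_iff.2 ⟨w, rfl⟩

end Pool.Agent.Helper17.Cherednik
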