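import Mathlib
import Pool.Agent.Helper17.Cherednik.Roots

set_option autoImplicit false

namespace Pool.Agent.Helper17.Cherednik

open Module TensorProduct

variable {V : Type} [AddCommGroup V] [Module ℂ V] (W : Subgroup (V ≃ₗ[ℂ] V))

abbrev RX : Type := Coinv (repX W)
abbrev RY : Type := Coinv (repY W)
abbrev NN : Type := W → RY W

/-- the free module of rank one over the restricted Cherednik algebra -/
def MM : Type := RX W ⊗[ℂ] NN W

noncomputable instance : AddCommGroup (MM W) :=
  inferInstanceAs (AddCommGroup (RX W ⊗[ℂ] NN W))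

noncomputable instance : Module ℂ (MM W) :=
  inferInstanceAs (Module ℂ (RX W ⊗[ℂ] NN W))

/-- pure tensors -/
noncomputable def tm {W : Subgroup (V ≃ₗ[ℂ] V)} (r : RX W) (n : NN W) : MM W := r ⊗ₜ[ℂ] n

/-- tensor product of operators -/
noncomputable def T (a : Module.End ℂ (RX W)) (b : Module.End ℂ (NN W)) :
    Module.End ℂ (MM W) := TensorProduct.map a b

variable {W}

lemma T_mul (a a' : Module.End ℂ (RX W)) (b b' : Module.End ℂ (NN W)) :
    T W a b * T W a' b' = T W (a * a') (b * b') :=
  (TensorProduct.map_mul a a' b b').symm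

lemma T_one : T W 1 1 = 1 := TensorProduct.map_one

lemma T_tmul (a : Module.End ℂ (RX W)) (b : Module.End ℂ (NN W)) (r : RX W) (n : NN W) :
    T W a b (tm r n) = tm (a r) (b n) := TensorProduct.map_tmul _ _ _ _

lemma MM_ext {L : Type} [AddCommGroup L] [Module ℂ L] {f g : MM W →ₗ[ℂ] L}
    (h : ∀ r n, f (tm r n) = g (tm r n)) : f = g :=
  TensorProduct.ext' h

lemma tm_add_right (r : RX W) (n n' : NN W) : tm r (n + n') = tm r n + tm r n' :=
  TensorProduct.tmul_add r n n'

lemma tm_smul_right (a : ℂ) (r : RX W) (n : NN W) : tm r (a • n) = a • tm r n :=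
  TensorProduct.tmul_smul a r n

lemma tm_zero_left (n : NN W) : tm (0 : RX W) n = 0 := TensorProduct.zero_tmul _ _

lemma tm_zero_right (r : RX W) : tm r (0 : NN W) = 0 := TensorProduct.tmul_zero _ _

lemma T_add_left (a a' : Module.End ℂ (RX W)) (b : Module.End ℂ (NN W)) :
    T W (a + a') b = T W a b + T W a' b := TensorProduct.map_add_left a a' b

lemma T_add_right (a : Module.End ℂ (RX W)) (b b' : Module.End ℂ (NN W)) :
    T W a (b + b') = T W a b + T W a b' := TensorProduct.map_add_right a b b'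

lemma T_smul_left (t : ℂ) (a : Module.End ℂ (RX W)) (b : Module.End ℂ (NN W)) :
    T W (t • a) b = t • T W a b := TensorProduct.map_smul_left t a b

lemma T_smul_right (t : ℂ) (a : Module.End ℂ (RX W)) (b : Module.End ℂ (NN W)) :
    T W a (t • b) = t • T W a b := TensorProduct.map_smul_right t a b

lemma T_sub_left (a a' : Module.End ℂ (RX W)) (b : Module.End ℂ (NN W)) :
    T W (a - a') b = T W a b - T W a' b := by
  have h := T_add_left (a - a') a' b
  rw [sub_add_cancel] at h
  rw [h, add_sub_cancel_right]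

lemma T_sub_right (a : Module.End ℂ (RX W)) (b b' : Module.End ℂ (NN W)) :
    T W a (b - b') = T W a b - T W a b' := by
  have h := T_add_right a (b - b') b'
  rw [sub_add_cancel] at h
  rw [h, add_sub_cancel_right]

variable (W)

/-- multiplication by a polynomial on the coinvariant algebra -/
noncomputable def mX (p : SymmetricAlgebra ℂ (Dual ℂ V)) : Module.End ℂ (RX W) :=
  LinearMap.mulLeft ℂ (cmk (repX W) p)

/-- action of group elements -/
noncomputable def gR (w : W) : Module.End ℂ (RX W) := (cAct (repX W) w).toLinearMap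

/-- divided differences -/
noncomputable def dR (s : Refl W) : Module.End ℂ (RX W) :=
  cdd (repX W) (evalAt (rootData s).β) (rootData s).α (rootData s).hα (s : W) (repX_refl s)

/-- left translation -/
noncomputable def lam (w : W) : Module.End ℂ (NN W) where
  toFun n := fun u => n (w⁻¹ * u)
  map_add' _ _ := rfl
  map_smul' _ _ := rfl

/-- pointwise operators -/
noncomputable def pw (h : Module.End ℂ (RY W)) : Module.End ℂ (NN W) where
  toFun n := fun u => h (n u)
  map_add' n n' := by ext u; simp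
  map_smul' r n := by ext u; simp

/-- left multiplication by a polynomial in `y` -/
noncomputable def mu (q : SymmetricAlgebra ℂ V) : Module.End ℂ (NN W) where
  toFun n := fun u => cmk (repY W) (symMap (repY W u⁻¹) q) * n u
  map_add' n n' := by ext u; simp [mul_add]
  map_smul' r n := by
    ext u
    rw [Pi.smul_apply, RingHom.id_apply, Pi.smul_apply, mul_smul_comm]

/-- right translation -/
noncomputable def rt (w : W) : Module.End ℂ (NN W) where
  toFun n := fun u => n (u * w⁻¹)
  map_add' _ _ := rfl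
  map_smul' _ _ := rfl

variable {W}

lemma lam_apply (w : W) (n : NN W) (u : W) : lam W w n u = n (w⁻¹ * u) := rfl
lemma pw_apply (h : Module.End ℂ (RY W)) (n : NN W) (u : W) : pw W h n u = h (n u) := rfl
lemma mu_apply (q : SymmetricAlgebra ℂ V) (n : NN W) (u : W) :
    mu W q n u = cmk (repY W) (symMap (repY W u⁻¹) q) * n u := rfl
lemma rt_apply (w : W) (n : NN W) (u : W) : rt W w n u = n (u * w⁻¹) := rfl

lemma lam_one : lam W 1 = 1 := by
  ext n u; simp [lam_apply]

lemma lam_mul (w w' : W) : lam W (w * w') = lam W w * lam W w' := by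
  refine LinearMap.ext fun n => funext fun u => ?_
  rw [Module.End.mul_apply, lam_apply, lam_apply, lam_apply, mul_inv_rev, mul_assoc]

lemma gR_one : gR W 1 = 1 := by
  refine LinearMap.ext fun q => ?_
  exact cAct_one _ q

lemma gR_mul (w w' : W) : gR W (w * w') = gR W w * gR W w' := by
  refine LinearMap.ext fun q => ?_
  exact cAct_mul _ w w' q

lemma gR_cmk (w : W) (p : SymmetricAlgebra ℂ (Dual ℂ V)) :
    gR W w (cmk (repX W) p) = cmk (repX W) (symMap (repX W w) p) := rfl

lemma gR_mX (w : W) (p : SymmetricAlgebra ℂ (Dual ℂ V)) :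
    gR W w * mX W p = mX W (symMap (repX W w) p) * gR W w := by
  refine LinearMap.ext fun q => ?_
  obtain ⟨p', rfl⟩ := cmk_surjective _ q
  change cAct (repX W) w (cmk (repX W) p * cmk (repX W) p') = _
  rw [map_mul]
  rfl

lemma mX_mul (p p' : SymmetricAlgebra ℂ (Dual ℂ V)) : mX W (p * p') = mX W p * mX W p' := by
  refine LinearMap.ext fun q => ?_
  change cmk (repX W) (p * p') * q = cmk (repX W) p * (cmk (repX W) p' * q)
  rw [map_mul, mul_assoc]

lemma mX_add (p p' : SymmetricAlgebra ℂ (Dual ℂ V)) : mX W (p + p') = mX W p + mX W p' := by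
  refine LinearMap.ext fun q => ?_
  change cmk (repX W) (p + p') * q = cmk (repX W) p * q + cmk (repX W) p' * q
  rw [map_add, add_mul]

lemma mX_algebraMap (r : ℂ) : mX W (algebraMap ℂ _ r) = r • (1 : Module.End ℂ (RX W)) := by
  refine LinearMap.ext fun q => ?_
  change cmk (repX W) (algebraMap ℂ _ r) * q = r • q
  rw [AlgHom.commutes, ← Algebra.smul_def]

lemma mX_comm (p p' : SymmetricAlgebra ℂ (Dual ℂ V)) : mX W p * mX W p' = mX W p' * mX W p := by
  rw [← mX_mul, ← mX_mul, mul_comm]

lemma dR_cmk (s : Refl W) (p : SymmetricAlgebra ℂ (Dual ℂ V)) :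
    dR W s (cmk (repX W) p) =
      cmk (repX W) (dd (evalAt (rootData s).β) (rootData s).α p) :=
  cdd_cmk _ _ _ _ _ _ p

lemma dR_mX (s : Refl W) (x : Dual ℂ V) :
    dR W s * mX W (SymmetricAlgebra.ι ℂ _ x) = mX W (SymmetricAlgebra.ι ℂ _ x) * dR W s +
      (x (rootData s).β) • gR W (s : W) := by
  refine LinearMap.ext fun q => ?_
  obtain ⟨p, rfl⟩ := cmk_surjective _ q
  rw [Module.End.mul_apply, LinearMap.add_apply, Module.End.mul_apply, LinearMap.smul_apply,
    gR_cmk, dR_cmk]
  change dR W s (cmk (repX W) (SymmetricAlgebra.ι ℂ _ x) * cmk (repX W) p) =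
    cmk (repX W) (SymmetricAlgebra.ι ℂ _ x) * cmk (repX W) _ + _
  rw [← map_mul, dR_cmk, dd_mul, dd_ι, repX_refl, ← map_mul, map_add, ← Algebra.smul_def,
    map_smul, evalAt_apply]

lemma dR_one (s : Refl W) : dR W s 1 = 0 := by
  rw [← map_one (cmk (repX W)), dR_cmk, dd_one, map_zero]

lemma lam_mu (w : W) (q : SymmetricAlgebra ℂ V) :
    lam W w * mu W q = mu W (symMap (repY W w) q) * lam W w := by
  refine LinearMap.ext fun n => funext fun u => ?_
  rw [Module.End.mul_apply, Module.End.mul_apply, lam_apply, mu_apply, mu_apply, lam_apply]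
  congr 2
  rw [mul_inv_rev, inv_inv, map_mul]
  exact symMap_comp (repY W u⁻¹) (repY W w) q

lemma mu_mul (q q' : SymmetricAlgebra ℂ V) : mu W (q * q') = mu W q * mu W q' := by
  refine LinearMap.ext fun n => funext fun u => ?_
  rw [Module.End.mul_apply, mu_apply, mu_apply, mu_apply, map_mul, map_mul, mul_assoc]

lemma mu_comm (q q' : SymmetricAlgebra ℂ V) : mu W q * mu W q' = mu W q' * mu W q := by
  rw [← mu_mul, ← mu_mul, mul_comm]

lemma mu_add (q q' : SymmetricAlgebra ℂ V) : mu W (q + q') = mu W q + mu W q' := by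
  refine LinearMap.ext fun n => funext fun u => ?_
  rw [LinearMap.add_apply, Pi.add_apply, mu_apply, mu_apply, mu_apply, map_add, map_add, add_mul]

lemma mu_smul (r : ℂ) (q : SymmetricAlgebra ℂ V) : mu W (r • q) = r • mu W q := by
  refine LinearMap.ext fun n => funext fun u => ?_
  rw [LinearMap.smul_apply, Pi.smul_apply, mu_apply, mu_apply, map_smul, map_smul, smul_mul_assoc]

lemma mu_algebraMap (r : ℂ) : mu W (algebraMap ℂ _ r) = r • (1 : Module.End ℂ (NN W)) := by
  refine LinearMap.ext fun n => funext fun u => ?_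
  rw [mu_apply, AlgHom.commutes, AlgHom.commutes, ← Algebra.smul_def]
  rfl

lemma mu_rt (q : SymmetricAlgebra ℂ V) (w : W) :
    mu W q * (pw W (cAct (repY W) w⁻¹).toLinearMap * rt W w) =
      (pw W (cAct (repY W) w⁻¹).toLinearMap * rt W w) * mu W q := by
  refine LinearMap.ext fun n => funext fun u => ?_
  simp only [Module.End.mul_apply, pw_apply, mu_apply, rt_apply, AlgHom.toLinearMap_apply, map_mul]
  rw [cAct_cmk]
  congr 2
  have h1 : u⁻¹ = w⁻¹ * (u * w⁻¹)⁻¹ := by group
  conv_lhs => rw [h1, map_mul]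
  exact symMap_comp (repY W w⁻¹) (repY W (u * w⁻¹)⁻¹) q

lemma lam_rt (u w : W) :
    lam W u * (pw W (cAct (repY W) w⁻¹).toLinearMap * rt W w) =
      (pw W (cAct (repY W) w⁻¹).toLinearMap * rt W w) * lam W u := by
  refine LinearMap.ext fun n => funext fun v => ?_
  simp only [Module.End.mul_apply, pw_apply, lam_apply, rt_apply, mul_assoc]

lemma lam_pw (u : W) (h : Module.End ℂ (RY W)) : lam W u * pw W h = pw W h * lam W u := rfl

lemma rt_pw (u : W) (h : Module.End ℂ (RY W)) : rt W u * pw W h = pw W h * rt W u := rfl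

lemma pw_mul (h h' : Module.End ℂ (RY W)) : pw W (h * h') = pw W h * pw W h' := rfl

lemma pw_sub (h h' : Module.End ℂ (RY W)) : pw W (h - h') = pw W h - pw W h' := rfl

lemma pw_smul (r : ℂ) (h : Module.End ℂ (RY W)) : pw W (r • h) = r • pw W h := rfl

lemma mu_pw (q : SymmetricAlgebra ℂ V) (b : RY W) :
    mu W q * pw W (LinearMap.mulLeft ℂ b) = pw W (LinearMap.mulLeft ℂ b) * mu W q := by
  refine LinearMap.ext fun n => funext fun v => ?_
  simp only [Module.End.mul_apply, pw_apply, mu_apply, LinearMap.mulLeft_apply]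
  ring

/-- conjugating a divided difference -/
lemma dR_conj (u : W) (s : Refl W) (y : V) :
    gR W u * (((rootData s).α y) • dR W s) =
      (((rootData (conjRefl u s)).α ((u : V ≃ₗ[ℂ] V) y)) • dR W (conjRefl u s)) * gR W u := by
  have key : ((rootData s).α y) • ((symMap (repX W u)).toLinearMap ∘ₗ
      dd (evalAt (rootData s).β) (rootData s).α ∘ₗ (symMap (repX W u⁻¹)).toLinearMap) =
      ((rootData (conjRefl u s)).α ((u : V ≃ₗ[ℂ] V) y)) •
        dd (evalAt (rootData (conjRefl u s)).β) (rootData (conjRefl u s)).α := by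
    have hinv : ∀ p, symMap (repX W u) (symMap (repX W u⁻¹) p) = p := by
      intro p
      rw [← symMap_comp]
      have : repX W u ∘ₗ repX W u⁻¹ = LinearMap.id := by
        change repX W u * repX W u⁻¹ = 1
        rw [← map_mul, mul_inv_cancel, map_one]
      rw [this, symMap_id]
    refine twisted_ext (repX W (conjRefl u s : W)) _ _ ?_ ?_ ?_ ?_ ?_
    · simp
    · simp
    · intro a b
      simp only [LinearMap.smul_apply, LinearMap.comp_apply, AlgHom.toLinearMap_apply, map_mul,
        dd_mul, map_add, hinv, smul_add, mul_smul_comm, smul_mul_assoc]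
      congr 3
      rw [← repX_refl, ← symMap_comp, ← symMap_comp]
      congr 2
    · intro a b
      simp only [LinearMap.smul_apply, dd_mul, smul_add, mul_smul_comm, smul_mul_assoc]
      rw [← repX_refl]
    · intro x
      simp only [LinearMap.smul_apply, LinearMap.comp_apply, AlgHom.toLinearMap_apply,
        symMap_ι, dd_ι, AlgHom.commutes, evalAt_apply]
      rw [Algebra.smul_def, Algebra.smul_def, ← map_mul, ← map_mul, mul_comm, ← sub_dualAct,
        mul_comm, ← sub_dualAct]
      congr 1
      change (repX W u⁻¹ x) y - (repX W u⁻¹ x) (((s : W) : V ≃ₗ[ℂ] V).symm y) =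
        x ((u : V ≃ₗ[ℂ] V) y) -
        x ((((conjRefl u s : Refl W) : W) : V ≃ₗ[ℂ] V).symm ((u : V ≃ₗ[ℂ] V) y))
      have h1 : ∀ v, (repX W u⁻¹ x) v = x ((u : V ≃ₗ[ℂ] V) v) := fun v => rfl
      have h2 : (((conjRefl u s : Refl W) : W) : V ≃ₗ[ℂ] V).symm ((u : V ≃ₗ[ℂ] V) y) =
          (u : V ≃ₗ[ℂ] V) (((s : W) : V ≃ₗ[ℂ] V).symm y) := by
        rw [LinearEquiv.symm_apply_eq]
        change _ = (u : V ≃ₗ[ℂ] V) (((s : W) : V ≃ₗ[ℂ] V) ((u : V ≃ₗ[ℂ] V).symm
          ((u : V ≃ₗ[ℂ] V) (((s : W) : V ≃ₗ[ℂ] V).symm y))))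
        rw [LinearEquiv.symm_apply_apply, LinearEquiv.apply_symm_apply]
      rw [h1, h1, h2]
  have hinv' : ∀ p, symMap (repX W u⁻¹) (symMap (repX W u) p) = p := by
    intro p
    rw [← symMap_comp]
    have : repX W u⁻¹ ∘ₗ repX W u = LinearMap.id := by
      change repX W u⁻¹ * repX W u = 1
      rw [← map_mul, inv_mul_cancel, map_one]
    rw [this, symMap_id]
  refine LinearMap.ext fun q => ?_
  obtain ⟨p, rfl⟩ := cmk_surjective _ q
  rw [Module.End.mul_apply, Module.End.mul_apply, LinearMap.smul_apply, LinearMap.smul_apply,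
    gR_cmk, dR_cmk, dR_cmk, map_smul, gR_cmk]
  have h := LinearMap.congr_fun key (symMap (repX W u) p)
  simp only [LinearMap.smul_apply, LinearMap.comp_apply, AlgHom.toLinearMap_apply, hinv'] at h
  have h' := congrArg (cmk (repX W)) h
  rw [map_smul, map_smul] at h'
  exact h'

end Pool.Agent.Helper17.Cherednik
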