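import Mathlib
import Pool.Agent.Helper17.Cherednik.Ops

set_option autoImplicit false

namespace Pool.Agent.Helper17.Cherednik

open Module

variable {V : Type} [AddCommGroup V] [Module ℂ V] (W : Subgroup (V ≃ₗ[ℂ] V))

/-- multiplication by a polynomial in the `x` variables -/
noncomputable def PX (p : SymmetricAlgebra ℂ (Dual ℂ V)) : Module.End ℂ (MM W) :=
  T W (mX W p) 1

noncomputable def XX : Dual ℂ V →ₗ[ℂ] Module.End ℂ (MM W) where
  toFun x := PX W (SymmetricAlgebra.ι ℂ _ x)
  map_add' x x' := by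
    unfold PX
    rw [map_add, mX_add, T_add_left]
  map_smul' r x := by
    unfold PX
    rw [map_smul, Algebra.smul_def, mX_mul, mX_algebraMap, smul_mul_assoc, one_mul, T_smul_left,
      RingHom.id_apply]

noncomputable def GG (w : W) : Module.End ℂ (MM W) := T W (gR W w) (lam W w)

variable [Fintype (Refl W)] (c : Refl W → ℂ)

noncomputable def YY : V →ₗ[ℂ] Module.End ℂ (MM W) where
  toFun y := T W 1 (mu W (SymmetricAlgebra.ι ℂ _ y)) -
    ∑ s : Refl W, (c s * (rootData s).α y) • T W (dR W s) (lam W (s : W))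
  map_add' y y' := by
    rw [map_add, mu_add, T_add_right]
    simp only [map_add, mul_add, add_smul, Finset.sum_add_distrib]
    abel
  map_smul' r y := by
    rw [map_smul, mu_smul, T_smul_right, RingHom.id_apply, smul_sub, Finset.smul_sum]
    congr 1
    refine Finset.sum_congr rfl fun s _ => ?_
    rw [map_smul, smul_smul, smul_eq_mul]
    congr 1
    ring

variable {W}

omit [Fintype (Refl W)] in
lemma PX_mul (p q : SymmetricAlgebra ℂ (Dual ℂ V)) : PX W (p * q) = PX W p * PX W q := by
  unfold PX; rw [T_mul, mX_mul, mul_one]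

omit [Fintype (Refl W)] in
lemma PX_add (p q : SymmetricAlgebra ℂ (Dual ℂ V)) : PX W (p + q) = PX W p + PX W q := by
  unfold PX; rw [mX_add, T_add_left]

omit [Fintype (Refl W)] in
lemma PX_algebraMap (r : ℂ) : PX W (algebraMap ℂ _ r) = r • (1 : Module.End ℂ (MM W)) := by
  unfold PX; rw [mX_algebraMap, T_smul_left, T_one]

omit [Fintype (Refl W)] in
lemma PX_tm_one (p : SymmetricAlgebra ℂ (Dual ℂ V)) (n : NN W) :
    PX W p (tm 1 n) = tm (cmk (repX W) p) n := by
  unfold PX
  rw [T_tmul]
  congr 1
  exact mul_one _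

omit [Fintype (Refl W)] in
lemma GG_one : GG W 1 = 1 := by
  unfold GG; rw [gR_one, lam_one, T_one]

omit [Fintype (Refl W)] in
lemma GG_mul (w w' : W) : GG W (w * w') = GG W w * GG W w' := by
  unfold GG; rw [T_mul, gR_mul, lam_mul]

omit [Fintype (Refl W)] in
lemma GG_XX (w : W) (x : Dual ℂ V) : GG W w * XX W x = XX W (repX W w x) * GG W w := by
  change T W (gR W w) (lam W w) * T W (mX W _) 1 = T W (mX W _) 1 * T W (gR W w) (lam W w)
  rw [T_mul, T_mul, gR_mX, symMap_ι, mul_one, one_mul]

omit [Fintype (Refl W)] in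
lemma XX_comm (x x' : Dual ℂ V) : XX W x * XX W x' = XX W x' * XX W x := by
  change PX W _ * PX W _ = PX W _ * PX W _
  rw [← PX_mul, ← PX_mul, mul_comm]

lemma YY_apply (y : V) : YY W c y = T W 1 (mu W (SymmetricAlgebra.ι ℂ _ y)) -
    ∑ s : Refl W, (c s * (rootData s).α y) • T W (dR W s) (lam W (s : W)) := rfl

lemma GG_YY (hc : IsParameter W c) (w : W) (y : V) :
    GG W w * YY W c y = YY W c ((w : V ≃ₗ[ℂ] V) y) * GG W w := by
  rw [YY_apply, YY_apply, mul_sub, sub_mul]
  unfold GG
  congr 1
  · rw [T_mul, T_mul, lam_mu, symMap_ι, mul_one, one_mul]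
    rfl
  · rw [Finset.mul_sum, Finset.sum_mul]
    refine Eq.trans (Finset.sum_congr rfl fun s _ => ?_) ((conjEquiv w).sum_comp _)
    change _ = (c (conjRefl w s) * (rootData (conjRefl w s)).α ((w : V ≃ₗ[ℂ] V) y)) •
      T W (dR W (conjRefl w s)) (lam W ((conjRefl w s : Refl W) : W)) * T W (gR W w) (lam W w)
    rw [hc.conj, mul_smul, mul_smul, mul_smul_comm, smul_mul_assoc, ← T_smul_left,
      ← T_smul_left, T_mul, T_mul, ← dR_conj, ← lam_mul, ← lam_mul]
    congr 3
    change w * s = w * s * w⁻¹ * w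
    group

lemma YY_XX (y : V) (x : Dual ℂ V) : YY W c y * XX W x - XX W x * YY W c y =
    -∑ s : Refl W, (c s * (x (rootData s).β * (rootData s).α y)) • GG W (s : W) := by
  rw [YY_apply, mul_sub, sub_mul]
  change T W 1 _ * T W (mX W _) 1 - _ - (T W (mX W _) 1 * T W 1 _ - _) = _
  rw [T_mul, T_mul]
  simp only [mul_one, one_mul]
  rw [Finset.sum_mul, Finset.mul_sum, sub_sub_sub_cancel_left, ← Finset.sum_sub_distrib,
    ← Finset.sum_neg_distrib]
  refine Finset.sum_congr rfl fun s _ => ?_
  change T W (mX W _) 1 * _ - _ * T W (mX W _) 1 = _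
  rw [smul_mul_assoc, mul_smul_comm, T_mul, T_mul, one_mul, mul_one, ← smul_sub, ← T_sub_left,
    dR_mX]
  rw [show mX W (SymmetricAlgebra.ι ℂ (Dual ℂ V) x) * dR W s -
    (mX W (SymmetricAlgebra.ι ℂ (Dual ℂ V) x) * dR W s + x (rootData s).β • gR W (s : W)) =
    (-(x (rootData s).β)) • gR W (s : W) from LinearMap.ext fun q => by
      rw [LinearMap.sub_apply, LinearMap.add_apply, LinearMap.smul_apply, LinearMap.smul_apply,
        neg_smul]
      abel]
  rw [T_smul_left, smul_smul, ← neg_smul]
  congr 1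
  ring

lemma YY_tm_one (y : V) (n : NN W) :
    YY W c y (tm 1 n) = tm 1 (mu W (SymmetricAlgebra.ι ℂ _ y) n) := by
  rw [YY_apply, LinearMap.sub_apply, T_tmul, LinearMap.sum_apply, Finset.sum_eq_zero, sub_zero]
  · rfl
  · intro s _
    rw [LinearMap.smul_apply, T_tmul, dR_one, tm_zero_left, smul_zero]

omit [Fintype (Refl W)] in
/-- An operator commuting with the `x`'s and killing `1 ⊗ NN` is zero. -/
lemma zero_of_comm (Z : Module.End ℂ (MM W)) (h1 : ∀ x, Z * XX W x = XX W x * Z)
    (h2 : ∀ n, Z (tm 1 n) = 0) : Z = 0 := by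
  have h3 : ∀ p, Z * PX W p = PX W p * Z := by
    intro p
    induction p using SymmetricAlgebra.induction with
    | algebraMap r => rw [PX_algebraMap, mul_smul_comm, smul_mul_assoc, mul_one, one_mul]
    | ι x => exact h1 x
    | mul a b ha hb => rw [PX_mul, ← mul_assoc, ha, mul_assoc, hb, mul_assoc]
    | add a b ha hb => rw [PX_add, mul_add, add_mul, ha, hb]
  refine MM_ext fun r n => ?_
  obtain ⟨p, rfl⟩ := cmk_surjective _ r
  rw [← PX_tm_one, ← Module.End.mul_apply, h3, Module.End.mul_apply, h2, map_zero]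
  rfl

lemma YY_comm (hc : IsParameter W c) (y y' : V) :
    YY W c y * YY W c y' = YY W c y' * YY W c y := by
  rw [← sub_eq_zero]
  apply zero_of_comm
  · intro x
    set B : V → Module.End ℂ (MM W) := fun y => YY W c y * XX W x - XX W x * YY W c y with hB
    have hBs : ∀ y, B y =
        -∑ s : Refl W, (c s * (x (rootData s).β * (rootData s).α y)) • GG W (s : W) :=
      fun y => YY_XX c y x
    have hG : ∀ (s : Refl W) (y : V), YY W c y * GG W (s : W) - GG W (s : W) * YY W c y =
        (rootData s).α y • (YY W c (rootData s).γ * GG W (s : W)) := by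
      intro s y
      rw [GG_YY c hc, ← sub_mul, ← map_sub, (rootData s).hs, sub_sub_cancel, map_smul,
        smul_mul_assoc]
    have hC : ∀ y y', YY W c y * B y' - B y' * YY W c y =
        -∑ s : Refl W, (c s * (x (rootData s).β * ((rootData s).α y' * (rootData s).α y))) •
          (YY W c (rootData s).γ * GG W (s : W)) := by
      intro y y'
      rw [hBs, mul_neg, neg_mul, neg_sub_neg, Finset.mul_sum, Finset.sum_mul,
        ← Finset.sum_sub_distrib, ← Finset.sum_neg_distrib]
      refine Finset.sum_congr rfl fun s _ => ?_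
      rw [smul_mul_assoc, mul_smul_comm, ← smul_sub, ← neg_sub, hG, smul_neg, smul_smul]
      congr 2
      ring
    have hsymm : YY W c y * B y' - B y' * YY W c y = YY W c y' * B y - B y * YY W c y' := by
      rw [hC, hC]
      congr 1
      refine Finset.sum_congr rfl fun s _ => ?_
      congr 1
      ring
    have h1 : (YY W c y * YY W c y' - YY W c y' * YY W c y) * XX W x -
        XX W x * (YY W c y * YY W c y' - YY W c y' * YY W c y) =
        (YY W c y * B y' - B y' * YY W c y) - (YY W c y' * B y - B y * YY W c y') := by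
      simp only [hB]
      noncomm_ring
    rw [hsymm, sub_self, sub_eq_zero] at h1
    exact h1
  · intro n
    rw [LinearMap.sub_apply, Module.End.mul_apply, Module.End.mul_apply, YY_tm_one, YY_tm_one,
      YY_tm_one, YY_tm_one, ← Module.End.mul_apply, ← Module.End.mul_apply, mu_comm, sub_self]

end Pool.Agent.Helper17.Cherednik
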