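import Mathlib
import Pool.Agent.Helper17.Cherednik.Rep

set_option autoImplicit false

namespace Pool.Agent.Helper17.Cherednik

open Module

/-- commutator of a polynomial with an element, in terms of divided differences -/
lemma comm_formula {H : Type} [Ring H] [Algebra ℂ H] {M : Type} [AddCommGroup M] [Module ℂ M]
    {ι' : Type} [Fintype ι'] (P : SymmetricAlgebra ℂ M →ₐ[ℂ] H) (f : ι' → Dual ℂ M) (γ : ι' → M)
    (g : ι' → H)
    (hg : ∀ i m, g i * P (SymmetricAlgebra.ι ℂ M m) =
      P (SymmetricAlgebra.ι ℂ M (refl (f i) (γ i) m)) * g i)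
    (Z : H) (κ : ι' → ℂ)
    (hZ : ∀ m, P (SymmetricAlgebra.ι ℂ M m) * Z - Z * P (SymmetricAlgebra.ι ℂ M m) =
      -∑ i, (κ i * f i m) • g i) (p : SymmetricAlgebra ℂ M) :
    P p * Z - Z * P p = -∑ i, κ i • (P (dd (f i) (γ i) p) * g i) := by
  have hg' : ∀ i p, g i * P p = P (symMap (refl (f i) (γ i)) p) * g i := by
    intro i p
    induction p using SymmetricAlgebra.induction with
    | algebraMap r =>
      rw [AlgHom.commutes, AlgHom.commutes, AlgHom.commutes]
      exact (Algebra.commutes r (g i)).symm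
    | ι x => rw [hg, symMap_ι]
    | mul a b ha hb => rw [map_mul, map_mul, map_mul, ← mul_assoc, ha, mul_assoc, hb, mul_assoc]
    | add a b ha hb => rw [map_add, map_add, map_add, mul_add, add_mul, ha, hb]
  induction p using SymmetricAlgebra.induction with
  | algebraMap r =>
    rw [AlgHom.commutes, Algebra.commutes r Z, sub_self]
    simp [dd_algebraMap]
  | ι x =>
    rw [hZ]
    congr 1
    refine Finset.sum_congr rfl fun i _ => ?_
    rw [dd_ι, AlgHom.commutes, mul_smul, ← Algebra.smul_def]
  | mul a b ha hb =>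
    have h1 : P (a * b) * Z - Z * P (a * b) = P a * (P b * Z - Z * P b) +
        (P a * Z - Z * P a) * P b := by
      rw [map_mul]; noncomm_ring
    rw [h1, ha, hb, mul_neg, neg_mul, Finset.mul_sum, Finset.sum_mul, ← neg_add,
      ← Finset.sum_add_distrib]
    congr 1
    refine Finset.sum_congr rfl fun i _ => ?_
    rw [dd_mul, map_add, map_mul, map_mul, add_mul, smul_add, mul_smul_comm, smul_mul_assoc,
      mul_assoc, mul_assoc, mul_assoc, hg']
  | add a b ha hb =>
    rw [map_add, add_mul, mul_add, add_sub_add_comm, ha, hb, ← neg_add,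
      ← Finset.sum_add_distrib]
    congr 1
    refine Finset.sum_congr rfl fun i _ => ?_
    rw [map_add, map_add, add_mul, smul_add]

variable {V : Type} [AddCommGroup V] [Module ℂ V] (W : Subgroup (V ≃ₗ[ℂ] V))
variable [Fintype (Refl W)] (c : Refl W → ℂ)

/-- operators attached to the generators -/
noncomputable def genOp : Gen W → Module.End ℂ (MM W)
  | Gen.x x => XX W x
  | Gen.y y => YY W c y
  | Gen.g w => GG W w

variable {W c}

lemma genOp_rel (hc : IsParameter W c) ⦃a b : FreeAlgebra ℂ (Gen W)⦄ (h : Rel W c a b) :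
    FreeAlgebra.lift ℂ (genOp W c) a = FreeAlgebra.lift ℂ (genOp W c) b := by
  induction h with
  | x_add x x' => simp [genOp]
  | x_smul a x => simp [genOp]
  | y_add y y' => simp [genOp]
  | y_smul a y => simp [genOp]
  | g_one => simp [genOp, GG_one]
  | g_mul w w' => simp [genOp, GG_mul]
  | g_x w x => simp only [map_mul, FreeAlgebra.lift_ι_apply, genOp]; exact GG_XX w x
  | g_y w y => simp only [map_mul, FreeAlgebra.lift_ι_apply, genOp]; exact GG_YY c hc w y
  | xx x x' => simp only [map_mul, FreeAlgebra.lift_ι_apply, genOp]; exact XX_comm x x'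
  | yy y y' => simp only [map_mul, FreeAlgebra.lift_ι_apply, genOp]; exact YY_comm c hc y y'
  | yx y x =>
    simp only [map_mul, map_sub, map_neg, FreeAlgebra.lift_ι_apply, genOp]
    rw [YY_XX, finsum_eq_sum_of_fintype, map_sum]
    congr 1
    refine Finset.sum_congr rfl fun s _ => ?_
    rw [map_smul, FreeAlgebra.lift_ι_apply, sub_dualAct]
    rfl

/-- the representation of `H_c` -/
noncomputable def repH (hc : IsParameter W c) : RCA W c →ₐ[ℂ] Module.End ℂ (MM W) :=
  RingQuot.liftAlgHom ℂ ⟨FreeAlgebra.lift ℂ (genOp W c), genOp_rel hc⟩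

lemma repH_HX (hc : IsParameter W c) (x : Dual ℂ V) : repH hc (HX W c x) = XX W x := by
  unfold repH
  refine (RingQuot.liftAlgHom_mkAlgHom_apply ℂ _ _ _).trans ?_
  rw [FreeAlgebra.lift_ι_apply]
  rfl

lemma repH_HY (hc : IsParameter W c) (y : V) : repH hc (HY W c y) = YY W c y := by
  unfold repH
  refine (RingQuot.liftAlgHom_mkAlgHom_apply ℂ _ _ _).trans ?_
  rw [FreeAlgebra.lift_ι_apply]
  rfl

lemma repH_HG (hc : IsParameter W c) (w : W) : repH hc (HG W c w) = GG W w := by
  unfold repH
  refine (RingQuot.liftAlgHom_mkAlgHom_apply ℂ _ _ _).trans ?_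
  rw [FreeAlgebra.lift_ι_apply]
  rfl

omit [Fintype (Refl W)] in
lemma polyX_ι (x : Dual ℂ V) : polyX W c (SymmetricAlgebra.ι ℂ _ x) = HX W c x :=
  symLift_ι _ _ x

omit [Fintype (Refl W)] in
lemma polyY_ι (y : V) : polyY W c (SymmetricAlgebra.ι ℂ _ y) = HY W c y :=
  symLift_ι _ _ y

omit [Fintype (Refl W)] in
lemma HG_HX (w : W) (x : Dual ℂ V) : HG W c w * HX W c x = HX W c (repX W w x) * HG W c w := by
  change mkH W c _ * mkH W c _ = _
  rw [← map_mul, mkH_rel (Rel.g_x w x), map_mul]; rfl

omit [Fintype (Refl W)] in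
lemma HG_HY (w : W) (y : V) : HG W c w * HY W c y = HY W c (repY W w y) * HG W c w := by
  change mkH W c _ * mkH W c _ = _
  rw [← map_mul, mkH_rel (Rel.g_y w y), map_mul]; rfl

lemma HY_HX (y : V) (x : Dual ℂ V) : HY W c y * HX W c x - HX W c x * HY W c y =
    -∑ s : Refl W, (c s * (x (rootData s).β * (rootData s).α y)) • HG W c (s : W) := by
  change mkH W c _ * mkH W c _ - mkH W c _ * mkH W c _ = _
  rw [← map_mul, ← map_mul, ← map_sub, mkH_rel (Rel.yx y x),
    finsum_eq_sum_of_fintype, map_neg, map_sum]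
  congr 1
  refine Finset.sum_congr rfl fun s _ => ?_
  rw [map_smul, sub_dualAct]
  rfl

/-- `[p(x), y]` -/
lemma polyX_HY (p : SymmetricAlgebra ℂ (Dual ℂ V)) (y : V) :
    polyX W c p * HY W c y - HY W c y * polyX W c p =
      -∑ s : Refl W, (-(c s * (rootData s).α y)) •
        (polyX W c (dd (evalAt (rootData s).β) (rootData s).α p) * HG W c (s : W)) := by
  refine comm_formula (polyX W c) (fun s : Refl W => evalAt (rootData s).β)
    (fun s => (rootData s).α) (fun s => HG W c (s : W)) ?_ _ _ ?_ p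
  · intro s x
    rw [polyX_ι, HG_HX, repX_refl, polyX_ι]
  · intro x
    rw [polyX_ι, ← neg_sub, HY_HX]
    congr 1
    rw [← Finset.sum_neg_distrib]
    refine Finset.sum_congr rfl fun s _ => ?_
    rw [← neg_smul, evalAt_apply]
    congr 1
    ring

/-- `[q(y), x]` -/
lemma polyY_HX (q : SymmetricAlgebra ℂ V) (x : Dual ℂ V) :
    polyY W c q * HX W c x - HX W c x * polyY W c q =
      -∑ s : Refl W, (c s * x (rootData s).β) •
        (polyY W c (dd (rootData s).α (rootData s).γ q) * HG W c (s : W)) := by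
  refine comm_formula (polyY W c) (fun s : Refl W => (rootData s).α)
    (fun s => (rootData s).γ) (fun s => HG W c (s : W)) ?_ _ _ ?_ q
  · intro s y
    rw [polyY_ι, HG_HY, repY_refl, polyY_ι]
  · intro y
    rw [polyY_ι, HY_HX]
    congr 1
    refine Finset.sum_congr rfl fun s _ => ?_
    rw [mul_assoc]

lemma repH_polyX (hc : IsParameter W c) (p : SymmetricAlgebra ℂ (Dual ℂ V)) :
    repH hc (polyX W c p) = PX W p := by
  induction p using SymmetricAlgebra.induction with
  | algebraMap r =>
    rw [AlgHom.commutes, AlgHom.commutes, PX_algebraMap, Algebra.algebraMap_eq_smul_one]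
  | ι x => rw [polyX_ι, repH_HX]; rfl
  | mul a b ha hb => rw [map_mul, map_mul, ha, hb, PX_mul]
  | add a b ha hb => rw [map_add, map_add, ha, hb, PX_add]

lemma repH_polyY_tm_one (hc : IsParameter W c) (q : SymmetricAlgebra ℂ V) (n : NN W) :
    repH hc (polyY W c q) (tm 1 n) = tm 1 (mu W q n) := by
  induction q using SymmetricAlgebra.induction generalizing n with
  | algebraMap r =>
    rw [AlgHom.commutes, AlgHom.commutes, mu_algebraMap, Algebra.algebraMap_eq_smul_one,
      LinearMap.smul_apply, LinearMap.smul_apply, tm_smul_right]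
    rfl
  | ι x => rw [polyY_ι, repH_HY, YY_tm_one]
  | mul a b ha hb => rw [map_mul, map_mul, Module.End.mul_apply, hb, ha, mu_mul]; rfl
  | add a b ha hb =>
    rw [map_add, map_add, LinearMap.add_apply, ha, hb, mu_add, LinearMap.add_apply, tm_add_right]

omit [Fintype (Refl W)] in
lemma PX_eq_zero {p : SymmetricAlgebra ℂ (Dual ℂ V)} (hp : IsInvX W p)
    (h0 : SymmetricAlgebra.algebraMapInv p = (0 : ℂ)) : PX W p = 0 := by
  have h1 : mX W p = 0 := by
    refine LinearMap.ext fun q => ?_
    change cmk (repX W) p * q = 0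
    rw [cmk_eq_zero (repX W) hp h0, zero_mul]
  unfold PX
  rw [h1]
  refine MM_ext fun r n => ?_
  rw [T_tmul, LinearMap.zero_apply, tm_zero_left]
  rfl

lemma repH_polyY_eq_zero (hc : IsParameter W c) {q : SymmetricAlgebra ℂ V} (hq : IsInvY W q)
    (h0 : SymmetricAlgebra.algebraMapInv q = (0 : ℂ)) : repH hc (polyY W c q) = 0 := by
  apply zero_of_comm
  · intro x
    have h1 := polyY_HX (c := c) q x
    have h2 : ∀ s : Refl W, dd (rootData s).α (rootData s).γ q = 0 := by
      intro s
      apply dd_eq_zero_of_inv (rootData s).hγ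
      rw [← repY_refl]
      exact hq s
    simp only [h2, map_zero, zero_mul, smul_zero, Finset.sum_const_zero, neg_zero] at h1
    have h3 := congrArg (repH hc) (sub_eq_zero.1 h1)
    rw [map_mul, map_mul, repH_HX] at h3
    exact h3
  · intro n
    rw [repH_polyY_tm_one]
    have h1 : mu W q n = 0 := by
      funext u
      rw [mu_apply, show symMap (repY W u⁻¹) q = q from hq u⁻¹, cmk_eq_zero (repY W) hq h0,
        zero_mul]
      rfl
    rw [h1, tm_zero_right]

/-- the representation of the restricted algebra -/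
noncomputable def repR (hc : IsParameter W c) : RRCA W c →ₐ[ℂ] Module.End ℂ (MM W) :=
  RingQuot.liftAlgHom ℂ ⟨repH hc, by
    rintro a b ⟨p, q, hp, hq, h, rfl, rfl⟩
    rw [map_mul, map_zero]
    rcases h with h | h
    · rw [repH_polyX, PX_eq_zero hp h, zero_mul]
    · rw [repH_polyY_eq_zero hc hq h, mul_zero]⟩

lemma repR_toR (hc : IsParameter W c) (a : RCA W c) : repR hc (toR W c a) = repH hc a := by
  exact RingQuot.liftAlgHom_mkAlgHom_apply ℂ _ _ _

omit [Fintype (Refl W)] in
lemma toR_surjective : Function.Surjective (toR W c) := RingQuot.mkAlgHom_surjective ℂ _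

omit [Fintype (Refl W)] in
lemma toR_rel {a b : RCA W c} (h : RRel W c a b) : toR W c a = toR W c b :=
  RingQuot.mkAlgHom_rel ℂ h

omit [Fintype (Refl W)] in
lemma mkH_surjective : Function.Surjective (mkH W c) := RingQuot.mkAlgHom_surjective ℂ _

omit [Fintype (Refl W)] in
lemma toR_polyX_eq_zero {p : SymmetricAlgebra ℂ (Dual ℂ V)} (hp : IsInvX W p)
    (h0 : SymmetricAlgebra.algebraMapInv p = (0 : ℂ)) : toR W c (polyX W c p) = 0 := by
  have h := toR_rel (RRel.inv (W := W) (c := c) p 1 hp
    (fun w => map_one _) (Or.inl h0))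
  rw [map_one, mul_one, map_zero] at h
  exact h

omit [Fintype (Refl W)] in
lemma toR_polyY_eq_zero {q : SymmetricAlgebra ℂ V} (hq : IsInvY W q)
    (h0 : SymmetricAlgebra.algebraMapInv q = (0 : ℂ)) : toR W c (polyY W c q) = 0 := by
  have h := toR_rel (RRel.inv (W := W) (c := c) 1 q
    (fun w => map_one _) hq (Or.inr h0))
  rw [map_one, one_mul, map_zero] at h
  exact h

omit [Fintype (Refl W)] in
/-- induction principle for `H_c` -/
lemma RCA_induction {motive : RCA W c → Prop} (one : motive 1)
    (x : ∀ x a, motive a → motive (HX W c x * a)) (y : ∀ y a, motive a → motive (HY W c y * a))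
    (g : ∀ w a, motive a → motive (HG W c w * a))
    (add : ∀ a b, motive a → motive b → motive (a + b))
    (smul : ∀ (r : ℂ) a, motive a → motive (r • a)) (a : RCA W c) : motive a := by
  obtain ⟨a, rfl⟩ := mkH_surjective a
  suffices h : ∀ b : FreeAlgebra ℂ (Gen W), ∀ z : RCA W c, motive z →
      motive (mkH W c b * z) by
    have := h a 1 one
    rwa [mul_one] at this
  intro b
  induction b using FreeAlgebra.induction with
  | grade0 r =>
    intro z hz
    rw [AlgHom.commutes, ← Algebra.smul_def]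
    exact smul r z hz
  | grade1 i =>
    intro z hz
    cases i with
    | x x' => exact x x' z hz
    | y y' => exact y y' z hz
    | g w => exact g w z hz
  | mul a b ha hb =>
    intro z hz
    rw [map_mul, mul_assoc]
    exact ha _ (hb z hz)
  | add a b ha hb =>
    intro z hz
    rw [map_add, add_mul]
    exact add _ _ (ha z hz) (hb z hz)

omit [Fintype (Refl W)] in
/-- `ℂ[𝔥]^co → H̄_c` -/
noncomputable def pX (W : Subgroup (V ≃ₗ[ℂ] V)) (c : Refl W → ℂ) : RX W →ₐ[ℂ] RRCA W c :=
  Ideal.Quotient.liftₐ (invIdeal (repX W)) ((toR W c).comp (polyX W c)) (by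
    intro a ha
    have := invIdeal_le (repX W) (J := LinearMap.ker ((toR W c).comp (polyX W c)).toLinearMap)
      ?_ a ha
    · exact this
    · intro a p h h0
      rw [LinearMap.mem_ker, AlgHom.toLinearMap_apply, map_mul]
      have h1 : ((toR W c).comp (polyX W c)) p = 0 := toR_polyX_eq_zero h h0
      rw [h1, mul_zero])

omit [Fintype (Refl W)] in
/-- `ℂ[𝔥*]^co → H̄_c` -/
noncomputable def pY (W : Subgroup (V ≃ₗ[ℂ] V)) (c : Refl W → ℂ) : RY W →ₐ[ℂ] RRCA W c :=
  Ideal.Quotient.liftₐ (invIdeal (repY W)) ((toR W c).comp (polyY W c)) (by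
    intro a ha
    have := invIdeal_le (repY W) (J := LinearMap.ker ((toR W c).comp (polyY W c)).toLinearMap)
      ?_ a ha
    · exact this
    · intro a p h h0
      rw [LinearMap.mem_ker, AlgHom.toLinearMap_apply, map_mul]
      have h1 : ((toR W c).comp (polyY W c)) p = 0 := toR_polyY_eq_zero h h0
      rw [h1, mul_zero])

omit [Fintype (Refl W)] in
lemma pX_cmk (p : SymmetricAlgebra ℂ (Dual ℂ V)) :
    pX W c (cmk (repX W) p) = toR W c (polyX W c p) := rfl

omit [Fintype (Refl W)] in
lemma pY_cmk (q : SymmetricAlgebra ℂ V) :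
    pY W c (cmk (repY W) q) = toR W c (polyY W c q) := rfl

end Pool.Agent.Helper17.Cherednik
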