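import Mathlib
import Pool.Agent.Helper17.Cherednik.PBW
import Pool.Agent.Helper17.Cherednik.Cellular2

set_option autoImplicit false

namespace Pool.Agent.Helper17.Cherednik

open Module

variable {V : Type} [AddCommGroup V] [Module ℂ V] {W : Subgroup (V ≃ₗ[ℂ] V)} {c : Refl W → ℂ}

lemma HG_polyX (w : W) (p : SymmetricAlgebra ℂ (Dual ℂ V)) :
    HG W c w * polyX W c p = polyX W c (symMap (repX W w) p) * HG W c w := by
  induction p using SymmetricAlgebra.induction with
  | algebraMap r =>
    rw [AlgHom.commutes, AlgHom.commutes, AlgHom.commutes]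
    exact (Algebra.commutes r _).symm
  | ι x => rw [polyX_ι, HG_HX, symMap_ι, polyX_ι]
  | mul a b ha hb => rw [map_mul, map_mul, map_mul, ← mul_assoc, ha, mul_assoc, hb, mul_assoc]
  | add a b ha hb => rw [map_add, map_add, map_add, mul_add, add_mul, ha, hb]

/-- the operator of right multiplication by `w` -/
noncomputable def RT (w : W) : Module.End ℂ (NN W) :=
  pw W (cAct (repY W) w⁻¹).toLinearMap * rt W w

section

variable [Fintype W]

/-- `n ↦ Σ_w w n(w)` -/
noncomputable def nu (W : Subgroup (V ≃ₗ[ℂ] V)) [Fintype W] (c : Refl W → ℂ) :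
    NN W →ₗ[ℂ] RRCA W c where
  toFun n := ∑ w : W, toR W c (HG W c w) * pY W c (n w)
  map_add' n n' := by
    rw [← Finset.sum_add_distrib]
    refine Finset.sum_congr rfl fun w _ => ?_
    rw [Pi.add_apply, map_add, mul_add]
  map_smul' r n := by
    rw [RingHom.id_apply, Finset.smul_sum]
    refine Finset.sum_congr rfl fun w _ => ?_
    rw [Pi.smul_apply, map_smul, mul_smul_comm]

lemma nu_apply (n : NN W) : nu W c n = ∑ w : W, toR W c (HG W c w) * pY W c (n w) := rfl

/-- the inverse of the PBW isomorphism -/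
noncomputable def psi (W : Subgroup (V ≃ₗ[ℂ] V)) [Fintype W] (c : Refl W → ℂ) :
    MM W →ₗ[ℂ] RRCA W c :=
  TensorProduct.lift ((LinearMap.mul ℂ (RRCA W c)).compl₁₂ (pX W c).toLinearMap (nu W c))

lemma psi_tm (r : RX W) (n : NN W) : psi W c (tm r n) = pX W c r * nu W c n :=
  TensorProduct.lift.tmul _ _

lemma nu_lam (w : W) (n : NN W) : nu W c (lam W w n) = toR W c (HG W c w) * nu W c n := by
  rw [nu_apply, nu_apply, Finset.mul_sum]
  refine (Equiv.sum_comp (Equiv.mulLeft w) _).symm.trans ?_
  refine Finset.sum_congr rfl fun u _ => ?_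
  rw [lam_apply, Equiv.coe_mulLeft, inv_mul_cancel_left, map_mul, map_mul, mul_assoc]

omit [Fintype W] in
lemma HY_HG (y : V) (w : W) : HY W c y * HG W c w = HG W c w * HY W c (repY W w⁻¹ y) := by
  rw [HG_HY, ← Module.End.mul_apply, ← map_mul, mul_inv_cancel, map_one]
  rfl

lemma nu_mu (y : V) (n : NN W) :
    nu W c (mu W (SymmetricAlgebra.ι ℂ _ y) n) = toR W c (HY W c y) * nu W c n := by
  rw [nu_apply, nu_apply, Finset.mul_sum]
  refine Finset.sum_congr rfl fun u _ => ?_
  rw [mu_apply, symMap_ι, map_mul, pY_cmk, polyY_ι, ← mul_assoc, ← map_mul, ← HY_HG, map_mul,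
    mul_assoc]

lemma psi_XX (x : Dual ℂ V) (t : MM W) :
    psi W c (XX W x t) = toR W c (HX W c x) * psi W c t := by
  have : psi W c ∘ₗ XX W x = LinearMap.mulLeft ℂ (toR W c (HX W c x)) ∘ₗ psi W c := by
    refine MM_ext (L := RRCA W c) fun r n => ?_
    obtain ⟨p, rfl⟩ := cmk_surjective _ r
    change psi W c (T W (mX W (SymmetricAlgebra.ι ℂ _ x)) 1 (tm _ n)) = _ * psi W c (tm _ n)
    rw [T_tmul, psi_tm, psi_tm]
    change pX W c (cmk (repX W) _ * cmk (repX W) p) * _ = _
    rw [map_mul, pX_cmk, polyX_ι, mul_assoc]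
    rfl
  exact LinearMap.congr_fun this t

lemma psi_GG (w : W) (t : MM W) : psi W c (GG W w t) = toR W c (HG W c w) * psi W c t := by
  have : psi W c ∘ₗ GG W w = LinearMap.mulLeft ℂ (toR W c (HG W c w)) ∘ₗ psi W c := by
    refine MM_ext (L := RRCA W c) fun r n => ?_
    obtain ⟨p, rfl⟩ := cmk_surjective _ r
    change psi W c (T W (gR W w) (lam W w) (tm _ n)) = _ * psi W c (tm _ n)
    rw [T_tmul, psi_tm, psi_tm, gR_cmk, nu_lam, pX_cmk, pX_cmk, ← mul_assoc, ← map_mul,
      ← HG_polyX, map_mul, mul_assoc]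
    rfl
  exact LinearMap.congr_fun this t

variable [Fintype (Refl W)]

lemma psi_YY (y : V) (t : MM W) : psi W c (YY W c y t) = toR W c (HY W c y) * psi W c t := by
  have : psi W c ∘ₗ YY W c y = LinearMap.mulLeft ℂ (toR W c (HY W c y)) ∘ₗ psi W c := by
    refine MM_ext (L := RRCA W c) fun r n => ?_
    obtain ⟨p, rfl⟩ := cmk_surjective _ r
    change psi W c (YY W c y (tm _ n)) = _ * psi W c (tm _ n)
    have h1 : ∀ s : Refl W, psi W c (((c s * (rootData s).α y) • T W (dR W s) (lam W (s : W)))
        (tm (cmk (repX W) p) n)) = ((c s * (rootData s).α y) •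
          (toR W c (polyX W c (dd (evalAt (rootData s).β) (rootData s).α p)) *
          toR W c (HG W c (s : W)))) * nu W c n := by
      intro s
      rw [LinearMap.smul_apply, map_smul, T_tmul, psi_tm, dR_cmk, pX_cmk, nu_lam, smul_mul_assoc,
        mul_assoc]
    have h2 := congrArg (toR W c) (polyX_HY (c := c) p y)
    rw [map_sub, map_mul, map_mul, map_neg, map_sum] at h2
    have h3 : ∑ s : Refl W, (c s * (rootData s).α y) •
          (toR W c (polyX W c (dd (evalAt (rootData s).β) (rootData s).α p)) *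
          toR W c (HG W c (s : W))) = toR W c (polyX W c p) * toR W c (HY W c y) -
          toR W c (HY W c y) * toR W c (polyX W c p) := by
      rw [h2, ← Finset.sum_neg_distrib]
      refine Finset.sum_congr rfl fun s _ => ?_
      rw [map_smul, map_mul, neg_smul, neg_neg]
    rw [YY_apply, LinearMap.sub_apply, map_sub, LinearMap.sum_apply, map_sum,
      Finset.sum_congr rfl (fun s _ => h1 s), ← Finset.sum_mul, h3, T_tmul, psi_tm, nu_mu, psi_tm,
      pX_cmk, sub_mul]
    change toR W c (polyX W c p) * _ - _ = _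
    rw [mul_assoc, sub_sub_cancel, mul_assoc]
    rfl
  exact LinearMap.congr_fun this t

lemma psi_act (hc : IsParameter W c) (a : RRCA W c) (t : MM W) :
    psi W c (repR hc a t) = a * psi W c t := by
  obtain ⟨a, rfl⟩ := toR_surjective a
  rw [repR_toR]
  induction a using RCA_induction generalizing t with
  | one => rw [map_one, map_one, one_mul]; rfl
  | x x a ha =>
    rw [map_mul, map_mul, Module.End.mul_apply, repH_HX, psi_XX, ha, mul_assoc]
  | y y a ha =>
    rw [map_mul, map_mul, Module.End.mul_apply, repH_HY, psi_YY, ha, mul_assoc]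
  | g w a ha =>
    rw [map_mul, map_mul, Module.End.mul_apply, repH_HG, psi_GG, ha, mul_assoc]
  | add a b ha hb => rw [map_add, map_add, LinearMap.add_apply, map_add, ha, hb, add_mul]
  | smul r a ha => rw [map_smul, map_smul, LinearMap.smul_apply, map_smul, ha, smul_mul_assoc]

open Classical in
/-- base vector -/
noncomputable def base (W : Subgroup (V ≃ₗ[ℂ] V)) : MM W := tm 1 (Pi.single 1 1)

omit [Fintype (Refl W)] in
lemma psi_base : psi W c (base W) = 1 := by
  classical
  unfold base
  rw [psi_tm, map_one, one_mul, nu_apply, Finset.sum_eq_single 1]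
  · rw [Pi.single_eq_same, map_one, map_one, map_one, mul_one]
  · intro w _ hw
    rw [Pi.single_eq_of_ne hw, map_zero, mul_zero]
  · simp

lemma rep_psi (hc : IsParameter W c) (t : MM W) : repR hc (psi W c t) (base W) = t := by
  classical
  have : (LinearMap.applyₗ (base W)) ∘ₗ (repR hc).toLinearMap ∘ₗ psi W c = LinearMap.id := by
    refine MM_ext fun r n => ?_
    change repR hc (psi W c (tm r n)) (base W) = tm r n
    obtain ⟨p, rfl⟩ := cmk_surjective _ r
    rw [psi_tm, map_mul, Module.End.mul_apply, pX_cmk, repR_toR, repH_polyX]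
    have h1 : repR hc (nu W c n) (base W) = tm 1 n := by
      rw [nu_apply, map_sum, LinearMap.sum_apply]
      have h2 : ∀ w : W, repR hc (toR W c (HG W c w) * pY W c (n w)) (base W) =
          tm 1 (Pi.single w (n w)) := by
        intro w
        obtain ⟨q, hq⟩ := cmk_surjective _ (n w)
        rw [← hq, map_mul, Module.End.mul_apply, pY_cmk, repR_toR, repR_toR, repH_HG]
        unfold base
        rw [repH_polyY_tm_one]
        unfold GG
        rw [T_tmul]
        congr 1
        · exact map_one (cAct (repX W) w)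
        · funext u
          rw [lam_apply, mu_apply]
          by_cases h : u = w
          · subst h
            rw [inv_mul_cancel, Pi.single_eq_same, Pi.single_eq_same, mul_one, inv_one, map_one]
            exact congrArg _ (symMap_id q)
          · rw [Pi.single_eq_of_ne h, Pi.single_eq_of_ne, mul_zero]
            intro h'
            apply h
            exact (inv_mul_eq_one.1 h').symm
      rw [Finset.sum_congr rfl (fun w _ => h2 w)]
      have h3 : n = ∑ w : W, Pi.single w (n w) := by
        rw [Finset.univ_sum_single]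
      conv_rhs => rw [h3]
      have h4 : ∀ (s : Finset W), (tm 1 (∑ w ∈ s, Pi.single w (n w)) : MM W) =
          ∑ w ∈ s, tm 1 (Pi.single w (n w)) := by
        intro s
        induction s using Finset.induction_on with
        | empty => rw [Finset.sum_empty, Finset.sum_empty, tm_zero_right]
        | insert a s ha ih => rw [Finset.sum_insert ha, Finset.sum_insert ha, tm_add_right, ih]
      exact (h4 Finset.univ).symm
    rw [h1, PX_tm_one]
  exact LinearMap.congr_fun this t

/-- PBW: the restricted algebra is free of rank one over itself realised on `MM W`. -/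
noncomputable def pbw (hc : IsParameter W c) : RRCA W c ≃ₗ[ℂ] MM W :=
  LinearEquiv.ofLinearMap ((LinearMap.applyₗ (base W)) ∘ₗ (repR hc).toLinearMap) (psi W c)
    (by
      refine LinearMap.ext fun t => ?_
      exact rep_psi hc t)
    (by
      refine LinearMap.ext fun a => ?_
      change psi W c (repR hc a (base W)) = a
      rw [psi_act, psi_base, mul_one])

lemma pbw_apply (hc : IsParameter W c) (a : RRCA W c) : pbw hc a = repR hc a (base W) := rfl

lemma pbw_mul (hc : IsParameter W c) (a b : RRCA W c) :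
    pbw hc (a * b) = repR hc a (pbw hc b) := by
  rw [pbw_apply, pbw_apply, map_mul, Module.End.mul_apply]

omit [Fintype W] in
/-- operators commuting with the representation -/
lemma repR_comm (hc : IsParameter W c) (K : Module.End ℂ (NN W))
    (hl : ∀ u, lam W u * K = K * lam W u) (hm : ∀ q, mu W q * K = K * mu W q) (a : RRCA W c) :
    repR hc a * T W 1 K = T W 1 K * repR hc a := by
  obtain ⟨a, rfl⟩ := toR_surjective a
  rw [repR_toR]
  induction a using RCA_induction with
  | one => rw [map_one, one_mul, mul_one]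
  | x x a ha =>
    rw [map_mul, mul_assoc, ha, ← mul_assoc, ← mul_assoc, repH_HX]
    congr 1
    change T W (mX W _) 1 * T W 1 K = T W 1 K * T W (mX W _) 1
    rw [T_mul, T_mul, one_mul, mul_one, mul_one, one_mul]
  | y y a ha =>
    rw [map_mul, mul_assoc, ha, ← mul_assoc, ← mul_assoc, repH_HY]
    congr 1
    rw [YY_apply, sub_mul, mul_sub, T_mul, T_mul, hm, Finset.sum_mul, Finset.mul_sum]
    congr 1
    refine Finset.sum_congr rfl fun s _ => ?_
    rw [smul_mul_assoc, mul_smul_comm, T_mul, T_mul, hl, one_mul, mul_one]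
  | g w a ha =>
    rw [map_mul, mul_assoc, ha, ← mul_assoc, ← mul_assoc, repH_HG]
    congr 1
    unfold GG
    rw [T_mul, T_mul, hl, one_mul, mul_one]
  | add a b ha hb => rw [map_add, add_mul, mul_add, ha, hb]
  | smul r a ha => rw [map_smul, smul_mul_assoc, mul_smul_comm, ha]

lemma pbw_mul_HG (hc : IsParameter W c) (a : RRCA W c) (w : W) :
    pbw hc (a * toR W c (HG W c w)) = T W 1 (RT w) (pbw hc a) := by
  classical
  have h1 := repR_comm hc (RT w) (fun u => lam_rt u w) (fun q => mu_rt q w) a
  have h2 : T W 1 (RT w) (base W) = GG W w (base W) := by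
    unfold base GG
    rw [T_tmul, T_tmul]
    congr 1
    · exact (map_one (cAct (repX W) w)).symm
    · funext u
      unfold RT
      rw [Module.End.mul_apply, pw_apply, rt_apply, lam_apply]
      by_cases h : u = w
      · subst h
        rw [mul_inv_cancel, inv_mul_cancel, Pi.single_eq_same]
        exact map_one (cAct (repY W) u⁻¹)
      · rw [Pi.single_eq_of_ne, Pi.single_eq_of_ne, map_zero]
        · intro h'
          exact h (inv_mul_eq_one.1 h').symm
        · intro h'
          exact h (mul_inv_eq_one.1 h')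
  rw [pbw_mul, pbw_apply, pbw_apply, repR_toR, repH_HG, ← h2, ← Module.End.mul_apply, h1,
    Module.End.mul_apply]

/-- trace of left multiplication by `a` composed with right multiplication by `w` -/
lemma trace_eq (hc : IsParameter W c) (a : RRCA W c) (w : W) :
    LinearMap.trace ℂ (RRCA W c) (LinearMap.mulLeft ℂ a ∘ₗ
      LinearMap.mulRight ℂ (toR W c (HG W c w))) =
    LinearMap.trace ℂ (MM W) (repR hc a * T W 1 (RT w)) := by
  rw [← LinearMap.trace_conj' (LinearMap.mulLeft ℂ a ∘ₗ
      LinearMap.mulRight ℂ (toR W c (HG W c w))) (pbw hc)]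
  congr 1
  refine LinearMap.ext fun t => ?_
  obtain ⟨b, rfl⟩ := (pbw hc).surjective t
  rw [LinearEquiv.conj_apply_apply, LinearEquiv.symm_apply_apply, Module.End.mul_apply,
    ← pbw_mul_HG, ← pbw_mul]
  rfl

end

instance finite_MM [Finite W] [FiniteDimensional ℂ V] : Module.Finite ℂ (MM W) := by
  have h1 : Module.Finite ℂ (RX W) := finite_coinv (repX W)
  have h2 : Module.Finite ℂ (RY W) := finite_coinv (repY W)
  have h3 : Module.Finite ℂ (NN W) := Module.Finite.pi
  exact Module.Finite.tensorProduct ℂ (RX W) (NN W)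

/-- vanishing of the traces for reflections -/
theorem trace_refl_eq_zero [Finite W] [FiniteDimensional ℂ V] (hc : IsParameter W c)
    (a : RRCA W c) (s : Refl W) :
    LinearMap.trace ℂ (RRCA W c) (LinearMap.mulLeft ℂ a ∘ₗ
      LinearMap.mulRight ℂ (toR W c (HG W c (s : W)))) = 0 := by
  have : Fintype W := Fintype.ofFinite W
  have : Fintype (Refl W) := Fintype.ofFinite _
  rw [trace_eq hc]
  set α := (rootData s).α with hα
  set β := (rootData s).β with hβ
  set κ := α β with hκ
  have hκ0 : κ ≠ 0 := by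
    have hfin := isOfFinOrder_of_finite ((s : W))
    refine (rootData s).pairing_ne_zero (orderOf (s : W)) hfin.orderOf_pos ?_
    rw [← Subgroup.coe_pow, pow_orderOf_eq_one, Subgroup.coe_one]
  let S : Module.End ℂ (RY W) := (cAct (repY W) (s : W)⁻¹).toLinearMap
  let D : Module.End ℂ (RY W) :=
    cdd (repY W) α β (rootData s).hβ (s : W)⁻¹ (repY_refl_inv s)
  let m : Module.End ℂ (RY W) := LinearMap.mulLeft ℂ (cmk (repY W) (SymmetricAlgebra.ι ℂ _ β))
  have hS : κ • S = D * m - m * D := by
    refine LinearMap.ext fun q => ?_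
    obtain ⟨p, rfl⟩ := cmk_surjective _ q
    rw [LinearMap.sub_apply, LinearMap.smul_apply, Module.End.mul_apply, Module.End.mul_apply]
    change κ • cmk (repY W) (symMap (repY W (s : W)⁻¹) p) =
      cdd (repY W) α β (rootData s).hβ (s : W)⁻¹ (repY_refl_inv s)
        (cmk (repY W) (SymmetricAlgebra.ι ℂ _ β) * cmk (repY W) p) -
      cmk (repY W) (SymmetricAlgebra.ι ℂ _ β) *
        cdd (repY W) α β (rootData s).hβ (s : W)⁻¹ (repY_refl_inv s) (cmk (repY W) p)
    rw [← map_mul, cdd_cmk, cdd_cmk, ← map_mul, ← map_sub, dd_mul, dd_ι, ← map_smul,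
      add_sub_cancel_left, ← Algebra.smul_def, repY_refl_inv]
  have hR : T W 1 (RT (s : W)) = κ⁻¹ • (T W 1 (rt W (s : W)) *
      (T W 1 (pw W D) * T W 1 (pw W m) - T W 1 (pw W m) * T W 1 (pw W D))) := by
    rw [T_mul, T_mul, ← T_sub_right, T_mul, ← pw_mul, ← pw_mul, ← pw_sub, ← hS, pw_smul,
      mul_smul_comm, T_smul_right, smul_smul, one_mul, one_mul, inv_mul_cancel₀ hκ0, one_smul]
    rfl
  have hcomm : repR hc a * T W 1 (pw W m) = T W 1 (pw W m) * repR hc a :=
    repR_comm hc (pw W m) (fun u => rfl) (fun q => mu_pw q _) a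
  have hcomm2 : T W 1 (rt W (s : W)) * T W 1 (pw W m) = T W 1 (pw W m) * T W 1 (rt W (s : W)) := by
    rw [T_mul, T_mul]; rfl
  rw [hR, mul_smul_comm, map_smul, smul_eq_mul, mul_eq_zero]
  right
  set P := repR hc a with hP
  set t := T W 1 (rt W (s : W)) with ht
  set d := T W 1 (pw W D) with hd
  set μ := T W 1 (pw W m) with hμ
  have e1 : P * (t * (d * μ - μ * d)) = P * t * d * μ - μ * (P * t * d) := by
    have : μ * (P * t * d) = P * t * (μ * d) := by
      rw [← mul_assoc, ← mul_assoc, ← hcomm, mul_assoc P μ t, ← hcomm2]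
      noncomm_ring
    rw [this]
    noncomm_ring
  rw [e1, map_sub, LinearMap.trace_mul_comm, sub_self]

/-- **Main theorem.** If the restricted rational Cherednik algebra is cellular, then every
reflection of `W` has trace zero on every finite-dimensional module. -/
theorem main_trace [Finite W] [FiniteDimensional ℂ V] (hc : IsParameter W c)
    (hcell : IsCellular (RRCA W c)) (s : Refl W)
    (L : Type) [AddCommGroup L] [Module ℂ L] [FiniteDimensional ℂ L]
    (ρ : RRCA W c →ₐ[ℂ] Module.End ℂ L) :
    LinearMap.trace ℂ L (ρ (toR W c (HG W c (s : W)))) = 0 := by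
  obtain ⟨m, hm⟩ : ∃ m : ℕ, (s : W) ^ (m + 1) = 1 := by
    have hfin := isOfFinOrder_of_finite ((s : W))
    refine ⟨orderOf (s : W) - 1, ?_⟩
    rw [Nat.sub_add_cancel hfin.orderOf_pos]
    exact pow_orderOf_eq_one _
  refine hcell.trace_eq_zero _ m ?_ (fun a => trace_refl_eq_zero hc a s) L ρ
  rw [← map_pow, ← map_pow, hm, map_one, map_one]

end Pool.Agent.Helper17.Cherednik
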