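import Mathlib
import Pool.Agent.Helper17.Cherednik.Iso

set_option autoImplicit false

namespace Pool.Agent.Helper17.Cherednik

open Module

variable {V : Type} [AddCommGroup V] [Module ℂ V] {W : Subgroup (V ≃ₗ[ℂ] V)} {c : Refl W → ℂ}

section Rigid

variable {B : Type} [Ring B] [Algebra ℂ B] (π : W →* B)

/-- values on generators -/
noncomputable def rigidGen : Gen W → B
  | Gen.x _ => 0
  | Gen.y _ => 0
  | Gen.g w => π w

/-- the condition for `x, y ↦ 0`, `w ↦ π w` to define a homomorphism -/
def IsRigid (c : Refl W → ℂ) : Prop := ∀ (x : Dual ℂ V) (y : V),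
  ∑ᶠ s : Refl W, (c s * (x - dualAct ((s : W) : V ≃ₗ[ℂ] V) x) y) • π (s : W) = 0

variable {π}

lemma rigid_rel [Finite W] (h : IsRigid π c) ⦃a b : FreeAlgebra ℂ (Gen W)⦄ (hab : Rel W c a b) :
    FreeAlgebra.lift ℂ (rigidGen π) a = FreeAlgebra.lift ℂ (rigidGen π) b := by
  have : Fintype (Refl W) := Fintype.ofFinite _
  induction hab with
  | x_add x x' => simp [rigidGen]
  | x_smul a x => simp [rigidGen]
  | y_add y y' => simp [rigidGen]
  | y_smul a y => simp [rigidGen]
  | g_one => simp [rigidGen]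
  | g_mul w w' => simp [rigidGen]
  | g_x w x => simp [rigidGen]
  | g_y w y => simp [rigidGen]
  | xx x x' => simp [rigidGen]
  | yy y y' => simp [rigidGen]
  | yx y x =>
    have h1 := h x y
    rw [finsum_eq_sum_of_fintype] at h1
    simp only [map_mul, map_sub, map_neg, FreeAlgebra.lift_ι_apply, rigidGen]
    rw [finsum_eq_sum_of_fintype, map_sum, mul_zero, sub_zero, zero_eq_neg, ← h1]
    refine Finset.sum_congr rfl fun s _ => ?_
    rw [map_smul, FreeAlgebra.lift_ι_apply]
    rfl

/-- the homomorphism from `H_c` -/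
noncomputable def rigidH [Finite W] (h : IsRigid π c) : RCA W c →ₐ[ℂ] B :=
  RingQuot.liftAlgHom ℂ ⟨FreeAlgebra.lift ℂ (rigidGen π), rigid_rel h⟩

lemma rigidH_mkH [Finite W] (h : IsRigid π c) (a : FreeAlgebra ℂ (Gen W)) :
    rigidH h (mkH W c a) = FreeAlgebra.lift ℂ (rigidGen π) a :=
  RingQuot.liftAlgHom_mkAlgHom_apply ℂ _ _ _

lemma rigidH_polyX [Finite W] (h : IsRigid π c) (p : SymmetricAlgebra ℂ (Dual ℂ V)) :
    rigidH h (polyX W c p) = algebraMap ℂ B (SymmetricAlgebra.algebraMapInv p) := by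
  induction p using SymmetricAlgebra.induction with
  | algebraMap r => rw [AlgHom.commutes, AlgHom.commutes, AlgHom.commutes]; rfl
  | ι x =>
    rw [polyX_ι, SymmetricAlgebra.algebraMapInv_ι, map_zero]
    refine (rigidH_mkH h _).trans ?_
    rw [FreeAlgebra.lift_ι_apply]
    rfl
  | mul a b ha hb => rw [map_mul, map_mul, ha, hb, map_mul, map_mul]
  | add a b ha hb => rw [map_add, map_add, ha, hb, map_add, map_add]

lemma rigidH_polyY [Finite W] (h : IsRigid π c) (q : SymmetricAlgebra ℂ V) :
    rigidH h (polyY W c q) = algebraMap ℂ B (SymmetricAlgebra.algebraMapInv q) := by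
  induction q using SymmetricAlgebra.induction with
  | algebraMap r => rw [AlgHom.commutes, AlgHom.commutes, AlgHom.commutes]; rfl
  | ι x =>
    rw [polyY_ι, SymmetricAlgebra.algebraMapInv_ι, map_zero]
    refine (rigidH_mkH h _).trans ?_
    rw [FreeAlgebra.lift_ι_apply]
    rfl
  | mul a b ha hb => rw [map_mul, map_mul, ha, hb, map_mul, map_mul]
  | add a b ha hb => rw [map_add, map_add, ha, hb, map_add, map_add]

/-- the homomorphism from the restricted algebra -/
noncomputable def rigidR [Finite W] (h : IsRigid π c) : RRCA W c →ₐ[ℂ] B :=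
  RingQuot.liftAlgHom ℂ ⟨rigidH h, by
    rintro a b ⟨p, q, hp, hq, h0, rfl, rfl⟩
    rw [map_mul, map_zero, rigidH_polyX, rigidH_polyY]
    rcases h0 with h0 | h0
    · rw [h0, map_zero, zero_mul]
    · rw [h0, map_zero, mul_zero]⟩

lemma rigidR_toR [Finite W] (h : IsRigid π c) (a : RCA W c) : rigidR h (toR W c a) = rigidH h a :=
  RingQuot.liftAlgHom_mkAlgHom_apply ℂ _ _ _

lemma rigidR_HG [Finite W] (h : IsRigid π c) (w : W) : rigidR h (toR W c (HG W c w)) = π w := by
  rw [rigidR_toR]
  refine (rigidH_mkH h _).trans ?_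
  rw [FreeAlgebra.lift_ι_apply]
  rfl

end Rigid

/-- If the restricted algebra is cellular then rigid representations have trace zero on
reflections. -/
theorem rigid_trace [Finite W] [FiniteDimensional ℂ V] (hc : IsParameter W c)
    (hcell : IsCellular (RRCA W c)) (L : Type) [AddCommGroup L] [Module ℂ L]
    [FiniteDimensional ℂ L] (π : W →* Module.End ℂ L) (h : IsRigid π c) (s : Refl W) :
    LinearMap.trace ℂ L (π (s : W)) = 0 := by
  have h1 := main_trace hc hcell s L (rigidR h)
  rw [rigidR_HG] at h1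
  exact h1

end Pool.Agent.Helper17.Cherednik
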