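import Mathlib
import Pool.Agent.Helper17.Cherednik.Rigid

set_option autoImplicit false

namespace Pool.Agent.Helper17.Cherednik

open Module

lemma sgnPerm_mem (a : Fin 2 → ℤˣ) (τ : Equiv.Perm (Fin 2)) : sgnPerm a τ ∈ B2 := ⟨a, τ, rfl⟩

instance finite_B2 : Finite B2 := by
  have : Function.Surjective (fun p : (Fin 2 → ℤˣ) × Equiv.Perm (Fin 2) =>
      (⟨sgnPerm p.1 p.2, sgnPerm_mem p.1 p.2⟩ : B2)) := by
    rintro ⟨_, a, τ, rfl⟩
    exact ⟨(a, τ), rfl⟩
  exact Finite.of_surjective _ this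

lemma perm_two (τ : Equiv.Perm (Fin 2)) : τ = 1 ∨ τ = Equiv.swap 0 1 := by
  revert τ; decide

/-- the value of the character on a signed permutation -/
noncomputable def chiFun (w : (Fin 2 → ℂ) ≃ₗ[ℂ] (Fin 2 → ℂ)) : ℂ :=
  (w (Pi.single 0 1) 0) ^ 2 - (w (Pi.single 0 1) 1) ^ 2

lemma chiFun_sgnPerm (a : Fin 2 → ℤˣ) (τ : Equiv.Perm (Fin 2)) :
    chiFun (sgnPerm a τ) = if τ = 1 then 1 else -1 := by
  unfold chiFun
  rw [sgnPerm_apply, sgnPerm_apply]
  rcases perm_two τ with rfl | rfl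
  · rcases Int.units_eq_one_or (a 0) with h | h <;> rw [h] <;> simp
  · have h0 : (Equiv.swap (0 : Fin 2) 1 : Equiv.Perm (Fin 2)) ≠ 1 := by decide
    rw [if_neg h0]
    rcases Int.units_eq_one_or (a 1) with h | h <;> rw [h] <;> simp

/-- the linear character of `B₂` that is `1` on diagonal matrices and `-1` on the others -/
noncomputable def chi : B2 →* ℂ where
  toFun w := chiFun (w : (Fin 2 → ℂ) ≃ₗ[ℂ] (Fin 2 → ℂ))
  map_one' := by
    rw [Subgroup.coe_one, ← sgnPerm_one, chiFun_sgnPerm, if_pos rfl]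
  map_mul' := by
    rintro ⟨_, a, τ, rfl⟩ ⟨_, b, υ, rfl⟩
    change chiFun (sgnPerm a τ * sgnPerm b υ) = chiFun (sgnPerm a τ) * chiFun (sgnPerm b υ)
    rw [sgnPerm_mul, chiFun_sgnPerm, chiFun_sgnPerm, chiFun_sgnPerm]
    have h0 : (Equiv.swap (0 : Fin 2) 1 : Equiv.Perm (Fin 2)) ≠ 1 := by decide
    rcases perm_two τ with rfl | rfl <;> rcases perm_two υ with rfl | rfl <;> simp [h0]

/-- the character as a one-dimensional representation -/
noncomputable def chiRep : B2 →* Module.End ℂ ℂ :=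
  (algebraMap ℂ (Module.End ℂ ℂ) : ℂ →* Module.End ℂ ℂ).comp chi

lemma trace_chiRep (w : B2) : LinearMap.trace ℂ ℂ (chiRep w) = chi w := by
  change LinearMap.trace ℂ ℂ (algebraMap ℂ (Module.End ℂ ℂ) (chi w)) = _
  rw [Algebra.algebraMap_eq_smul_one, map_smul, LinearMap.trace_one]
  simp

/-- parameters of the four reflections -/
def reflA : Fin 4 → (Fin 2 → ℤˣ) := ![![-1, 1], ![1, -1], ![1, 1], ![-1, -1]]
def reflP : Fin 4 → Equiv.Perm (Fin 2) := ![1, 1, Equiv.swap 0 1, Equiv.swap 0 1]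

/-- root vectors -/
noncomputable def reflRoot : Fin 4 → (Fin 2 → ℂ) := ![![1, 0], ![0, 1], ![1, -1], ![1, 1]]

lemma refl_eq (k : Fin 4) (v : Fin 2 → ℂ) : ∃ t : ℂ,
    sgnPerm (reflA k) (reflP k) v - v = t • reflRoot k := by
  fin_cases k
  · refine ⟨-2 * v 0, ?_⟩
    ext i
    fin_cases i <;> simp [sgnPerm_apply, reflA, reflP, reflRoot] <;> ring
  · refine ⟨-2 * v 1, ?_⟩
    ext i
    fin_cases i <;> simp [sgnPerm_apply, reflA, reflP, reflRoot] <;> ring
  · refine ⟨v 1 - v 0, ?_⟩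
    ext i
    fin_cases i <;> simp [sgnPerm_apply, reflA, reflP, reflRoot]
  · refine ⟨-(v 1 + v 0), ?_⟩
    ext i
    fin_cases i <;> simp [sgnPerm_apply, reflA, reflP, reflRoot] <;> ring

lemma isReflection_refl (k : Fin 4) : IsReflection (sgnPerm (reflA k) (reflP k)) := by
  unfold IsReflection
  rw [finrank_eq_one_iff']
  have hne : sgnPerm (reflA k) (reflP k) (reflRoot k) - reflRoot k ≠ 0 := by
    fin_cases k
    · intro h
      have := congrFun h 0
      simp [sgnPerm_apply, reflA, reflP, reflRoot] at this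
      norm_num at this
    · intro h
      have := congrFun h 1
      simp [sgnPerm_apply, reflA, reflP, reflRoot] at this
      norm_num at this
    · intro h
      have := congrFun h 0
      simp [sgnPerm_apply, reflA, reflP, reflRoot] at this
      norm_num at this
    · intro h
      have := congrFun h 0
      simp [sgnPerm_apply, reflA, reflP, reflRoot] at this
      norm_num at this
  obtain ⟨t0, ht0⟩ := refl_eq k (reflRoot k)
  have ht00 : t0 ≠ 0 := by
    rintro rfl
    rw [zero_smul] at ht0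
    exact hne ht0
  refine ⟨⟨sgnPerm (reflA k) (reflP k) (reflRoot k) - reflRoot k, ⟨reflRoot k, by simp⟩⟩, ?_, ?_⟩
  · intro h
    exact hne (congrArg Subtype.val h)
  · rintro ⟨_, v, rfl⟩
    obtain ⟨t, ht⟩ := refl_eq k v
    refine ⟨t * t0⁻¹, Subtype.ext ?_⟩
    change (t * t0⁻¹) • (sgnPerm (reflA k) (reflP k) (reflRoot k) - reflRoot k) =
      sgnPerm (reflA k) (reflP k) v - v
    rw [ht0, ht, smul_smul, mul_assoc, inv_mul_cancel₀ ht00, mul_one]

/-- the four reflections of `B₂` -/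
noncomputable def refl4 (k : Fin 4) : Refl B2 :=
  ⟨⟨sgnPerm (reflA k) (reflP k), sgnPerm_mem _ _⟩, isReflection_refl k⟩

lemma isReflection_injective {V : Type} [AddCommGroup V] [Module ℂ V] [FiniteDimensional ℂ V]
    (h2 : 2 ≤ finrank ℂ V) {s : V ≃ₗ[ℂ] V} (hs : IsReflection s) : ∃ v, v ≠ 0 ∧ s v = v := by
  by_contra hcon
  push Not at hcon
  have hinj : Function.Injective (((s : V →ₗ[ℂ] V) - LinearMap.id : V →ₗ[ℂ] V) : V → V) := by
    rw [← LinearMap.ker_eq_bot, LinearMap.ker_eq_bot']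
    intro v hv
    by_contra hv0
    apply hcon v hv0
    exact sub_eq_zero.1 hv
  have h3 := LinearMap.finrank_range_of_inj hinj
  unfold IsReflection at hs
  omega

lemma refl4_surjective : Function.Surjective refl4 := by
  rintro ⟨⟨_, a, τ, rfl⟩, hs⟩
  change IsReflection (sgnPerm a τ) at hs
  obtain ⟨v, hv0, hv⟩ := isReflection_injective (by simp) hs
  have hne : sgnPerm a τ ≠ 1 := by
    intro h
    rw [h] at hs
    unfold IsReflection at hs
    have : ((1 : (Fin 2 → ℂ) ≃ₗ[ℂ] (Fin 2 → ℂ)) : (Fin 2 → ℂ) →ₗ[ℂ] (Fin 2 → ℂ)) -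
        LinearMap.id = 0 := by ext; simp
    rw [this, LinearMap.range_zero, finrank_bot] at hs
    exact absurd hs (by norm_num)
  have hv0' := congrFun hv 0
  have hv1' := congrFun hv 1
  rw [sgnPerm_apply] at hv0' hv1'
  have hvne : v 0 ≠ 0 ∨ v 1 ≠ 0 := by
    by_contra h
    push Not at h
    apply hv0
    ext i
    fin_cases i
    · exact h.1
    · exact h.2
  have ha : a = ![a 0, a 1] := by ext i; fin_cases i <;> rfl
  rcases perm_two τ with rfl | rfl
  · rcases Int.units_eq_one_or (a 0) with h0 | h0 <;> rcases Int.units_eq_one_or (a 1) with h1 | h1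
    · exfalso
      apply hne
      rw [← sgnPerm_one]
      congr 1
      rw [ha, h0, h1]
      ext i; fin_cases i <;> rfl
    · refine ⟨1, Subtype.ext (Subtype.ext ?_)⟩
      change sgnPerm ![1, -1] 1 = sgnPerm a 1
      rw [ha, h0, h1]
    · refine ⟨0, Subtype.ext (Subtype.ext ?_)⟩
      change sgnPerm ![-1, 1] 1 = sgnPerm a 1
      rw [ha, h0, h1]
    · exfalso
      rw [h0] at hv0'
      rw [h1] at hv1'
      simp at hv0' hv1'
      have e0 : v 0 = 0 := self_eq_neg.1 hv0'.symm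
      have e1 : v 1 = 0 := self_eq_neg.1 hv1'.symm
      rcases hvne with h | h
      · exact h e0
      · exact h e1
  · rcases Int.units_eq_one_or (a 0) with h0 | h0 <;> rcases Int.units_eq_one_or (a 1) with h1 | h1
    · refine ⟨2, Subtype.ext (Subtype.ext ?_)⟩
      change sgnPerm ![1, 1] (Equiv.swap 0 1) = sgnPerm a (Equiv.swap 0 1)
      rw [ha, h0, h1]
    · exfalso
      rw [h0] at hv0'
      rw [h1] at hv1'
      simp at hv0' hv1'
      have e1 : v 1 = 0 := by
        rw [← hv0'] at hv1'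
        exact self_eq_neg.1 hv1'.symm
      have e0 : v 0 = 0 := by rw [← hv0', e1]
      rcases hvne with h | h
      · exact h e0
      · exact h e1
    · exfalso
      rw [h0] at hv0'
      rw [h1] at hv1'
      simp at hv0' hv1'
      have e1 : v 0 = 0 := by
        rw [← hv1'] at hv0'
        exact self_eq_neg.1 hv0'.symm
      have e0 : v 1 = 0 := by rw [← hv1', e1]
      rcases hvne with h | h
      · exact h e1
      · exact h e0
    · refine ⟨3, Subtype.ext (Subtype.ext ?_)⟩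
      change sgnPerm ![-1, -1] (Equiv.swap 0 1) = sgnPerm a (Equiv.swap 0 1)
      rw [ha, h0, h1]

lemma refl4_injective : Function.Injective refl4 := by
  intro j k h
  have h1 : sgnPerm (reflA j) (reflP j) = sgnPerm (reflA k) (reflP k) :=
    congrArg (fun s : Refl B2 => ((s : B2) : (Fin 2 → ℂ) ≃ₗ[ℂ] (Fin 2 → ℂ))) h
  have h2 := congrFun (LinearEquiv.congr_fun h1 ![1, 2]) 0
  have h3 := congrFun (LinearEquiv.congr_fun h1 ![1, 2]) 1
  rw [sgnPerm_apply, sgnPerm_apply] at h2 h3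
  fin_cases j <;> fin_cases k <;> simp [reflA, reflP] at h2 h3 ⊢ <;> norm_num at h2

lemma rigid_chi (t : ℂ) : IsRigid chiRep (fun _ : Refl B2 => t) := by
  intro x y
  have h0 : (Equiv.swap (0 : Fin 2) 1 : Equiv.Perm (Fin 2)) ≠ 1 := by decide
  have hx : ∀ v : Fin 2 → ℂ, x v = v 0 * x (Pi.single 0 1) + v 1 * x (Pi.single 1 1) := by
    intro v
    have e0 : (fun j => if (0 : Fin 2) = j then (1 : ℂ) else 0) = Pi.single 0 1 := by
      ext j; fin_cases j <;> simp
    have e1 : (fun j => if (1 : Fin 2) = j then (1 : ℂ) else 0) = Pi.single 1 1 := by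
      ext j; fin_cases j <;> simp
    rw [LinearMap.pi_apply_eq_sum_univ x v, Fin.sum_univ_two, smul_eq_mul, smul_eq_mul, e0, e1]
  have key : ∀ k : Fin 4, (t * (x - dualAct (((refl4 k : Refl B2) : B2) :
      (Fin 2 → ℂ) ≃ₗ[ℂ] (Fin 2 → ℂ)) x) y) • chiRep ((refl4 k : Refl B2) : B2) =
      ((t * (x y - x ((sgnPerm (reflA k) (reflP k)).symm y))) *
        (if reflP k = 1 then 1 else -1)) • (1 : Module.End ℂ ℂ) := by
    intro k
    change (t * (x y - x ((sgnPerm (reflA k) (reflP k)).symm y))) •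
      algebraMap ℂ (Module.End ℂ ℂ) (chiFun (sgnPerm (reflA k) (reflP k))) = _
    rw [chiFun_sgnPerm, Algebra.algebraMap_eq_smul_one, smul_smul]
  have hsymm : ∀ (a : Fin 2 → ℤˣ) (τ : Equiv.Perm (Fin 2)) (i : Fin 2),
      (sgnPerm a τ).symm y i = ((a (τ.symm i) : ℤ) : ℂ) * y (τ.symm i) := fun _ _ _ => rfl
  rw [← finsum_comp refl4 ⟨refl4_injective, refl4_surjective⟩, finsum_eq_sum_of_fintype,
    Fin.sum_univ_four, key, key, key, key, ← add_smul, ← add_smul, ← add_smul]
  refine (congrArg (fun r : ℂ => r • (1 : Module.End ℂ ℂ)) ?_).trans (zero_smul ℂ _)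
  rw [hx y, hx ((sgnPerm (reflA 0) (reflP 0)).symm y), hx ((sgnPerm (reflA 1) (reflP 1)).symm y),
    hx ((sgnPerm (reflA 2) (reflP 2)).symm y), hx ((sgnPerm (reflA 3) (reflP 3)).symm y)]
  have hs1 : ∀ i, (Equiv.symm (1 : Equiv.Perm (Fin 2))) i = i := fun _ => rfl
  simp only [hsymm]
  simp [reflA, reflP, h0, hs1]
  ring

lemma isParameter_const {V : Type} [AddCommGroup V] [Module ℂ V] (W : Subgroup (V ≃ₗ[ℂ] V))
    (t : ℂ) : IsParameter W (fun _ => t) := fun _ _ _ => rfl

/-- `H̄_c(B₂)` is not cellular when `c` is constant -/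
theorem B2_not_cellular (t : ℂ) : ¬ IsCellular (RRCA B2 (fun _ => t)) := by
  intro hcell
  have h := rigid_trace (isParameter_const B2 t) hcell ℂ chiRep (rigid_chi t) (refl4 0)
  rw [trace_chiRep] at h
  change chiFun (sgnPerm (reflA 0) (reflP 0)) = 0 at h
  rw [chiFun_sgnPerm] at h
  simp [reflP] at h

end Pool.Agent.Helper17.Cherednik
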